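import Mathlib
import Pool.Agent.NCP.RExp
import Pool.Agent.NCP.Form

/-!
NCR: homomorphisms and rational formulas; the arguments of the outer inversions; levels.
-/

set_option autoImplicit false

namespace Pool.Agent.NCR

open Pool.Agent.NCP

universe u

variable {K : Type u} [Field K] {n : ℕ}

theorem map_inverse_of_isUnit {R S : Type*} [Ring R] [Ring S] (f : R →+* S) {x : R} (h : IsUnit x) :
    f (Ring.inverse x) = Ring.inverse (f x) := by
  have h1 : IsUnit (f x) := h.map f
  have h2 : f (Ring.inverse x) * f x = 1 := by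
    rw [← map_mul, Ring.inverse_mul_cancel _ h, map_one]
  calc f (Ring.inverse x) = f (Ring.inverse x) * (f x * Ring.inverse (f x)) := by
        rw [Ring.mul_inverse_cancel _ h1, mul_one]
    _ = Ring.inverse (f x) := by rw [← mul_assoc, h2, one_mul]

/-- Formulas and homomorphisms of algebras. -/
theorem defined_hom {R S : Type*} [Ring R] [Algebra K R] [Ring S] [Algebra K S] (f : R →ₐ[K] S)
    (Y : Fin n → R) (φ : RExp K n) (h : φ.Defined Y) :
    φ.Defined (fun i => f (Y i)) ∧ φ.eval (fun i => f (Y i)) = f (φ.eval Y) := by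
  induction φ with
  | const c => exact ⟨trivial, (f.commutes c).symm⟩
  | var i => exact ⟨trivial, rfl⟩
  | add a b iha ihb =>
    obtain ⟨a1, a2⟩ := iha h.1
    obtain ⟨b1, b2⟩ := ihb h.2
    refine ⟨⟨a1, b1⟩, ?_⟩
    show a.eval _ + b.eval _ = f (a.eval Y + b.eval Y)
    rw [a2, b2, map_add]
  | mul a b iha ihb =>
    obtain ⟨a1, a2⟩ := iha h.1
    obtain ⟨b1, b2⟩ := ihb h.2
    refine ⟨⟨a1, b1⟩, ?_⟩
    show a.eval _ * b.eval _ = f (a.eval Y * b.eval Y)
    rw [a2, b2, map_mul]
  | inv a iha =>
    obtain ⟨a1, a2⟩ := iha h.1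
    refine ⟨⟨a1, ?_⟩, ?_⟩
    · rw [a2]
      exact h.2.map f
    · show Ring.inverse (a.eval _) = f (Ring.inverse (a.eval Y))
      rw [a2]
      exact (map_inverse_of_isUnit (f : R →+* S) h.2).symm

theorem defined_equiv {R S : Type*} [Ring R] [Algebra K R] [Ring S] [Algebra K S] (f : R ≃ₐ[K] S)
    (Y : Fin n → R) (φ : RExp K n) : φ.Defined (fun i => f (Y i)) ↔ φ.Defined Y := by
  constructor
  · intro h
    have h1 := (defined_hom (f.symm : S →ₐ[K] R) _ φ h).1
    have h2 : (fun i => (f.symm : S →ₐ[K] R) (f (Y i))) = Y := by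
      funext i
      exact f.symm_apply_apply (Y i)
    rwa [h2] at h1
  · intro h
    exact (defined_hom (f : R →ₐ[K] S) Y φ h).1

/-- The arguments of the outermost inversion gates. -/
def args : RExp K n → List (RExp K n)
  | .const _ => []
  | .var _ => []
  | .add a b => args a ++ args b
  | .mul a b => args a ++ args b
  | .inv a => [a]

theorem defined_iff_args {R : Type*} [Ring R] [Algebra K R] (Y : Fin n → R) (φ : RExp K n) :
    φ.Defined Y ↔ ∀ a ∈ args φ, (RExp.inv a).Defined Y := by
  induction φ with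
  | const c => simp [args, RExp.Defined]
  | var i => simp [args, RExp.Defined]
  | add a b iha ihb =>
    rw [RExp.Defined, iha, ihb, args]
    simp only [List.mem_append]
    exact ⟨fun h c hc => hc.elim (h.1 c) (h.2 c), fun h => ⟨fun c hc => h c (Or.inl hc),
      fun c hc => h c (Or.inr hc)⟩⟩
  | mul a b iha ihb =>
    rw [RExp.Defined, iha, ihb, args]
    simp only [List.mem_append]
    exact ⟨fun h c hc => hc.elim (h.1 c) (h.2 c), fun h => ⟨fun c hc => h c (Or.inl hc),
      fun c hc => h c (Or.inr hc)⟩⟩
  | inv a iha => simp [args]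

theorem size_args (φ : RExp K n) : ∀ a ∈ args φ, a.size ≤ φ.size := by
  induction φ with
  | const c => simp [args]
  | var i => simp [args]
  | add a b iha ihb =>
    intro c hc
    rw [args, List.mem_append] at hc
    rw [RExp.size]
    rcases hc with hc | hc
    · have := iha c hc; omega
    · have := ihb c hc; omega
  | mul a b iha ihb =>
    intro c hc
    rw [args, List.mem_append] at hc
    rw [RExp.size]
    rcases hc with hc | hc
    · have := iha c hc; omega
    · have := ihb c hc; omega
  | inv a iha =>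
    intro c hc
    rw [args, List.mem_singleton] at hc
    rw [hc, RExp.size]
    omega

/-- The levels: level `0` consists of the formulas defined at the origin; the formulas of level
`h + 1` are built by sums and products from constants, variables and inverses of formulas of
level `h`. -/
def Lv : ℕ → RExp K n → Prop
  | 0, φ => φ.Defined (0 : Fin n → K)
  | _ + 1, .const _ => True
  | _ + 1, .var _ => True
  | h + 1, .add a b => Lv (h + 1) a ∧ Lv (h + 1) b
  | h + 1, .mul a b => Lv (h + 1) a ∧ Lv (h + 1) b
  | h + 1, .inv a => Lv h a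

theorem lv_args (h : ℕ) (φ : RExp K n) (hφ : Lv (h + 1) φ) : ∀ a ∈ args φ, Lv h a := by
  induction φ with
  | const c => simp [args]
  | var i => simp [args]
  | add a b iha ihb =>
    intro c hc
    rw [args, List.mem_append] at hc
    rw [Lv] at hφ
    exact hc.elim (iha hφ.1 c) (ihb hφ.2 c)
  | mul a b iha ihb =>
    intro c hc
    rw [args, List.mem_append] at hc
    rw [Lv] at hφ
    exact hc.elim (iha hφ.1 c) (ihb hφ.2 c)
  | inv a iha =>
    intro c hc
    rw [args, List.mem_singleton] at hc
    rw [Lv] at hφ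
    rw [hc]
    exact hφ

theorem lv_succ (h : ℕ) (φ : RExp K n) (hφ : Lv h φ) : Lv (h + 1) φ := by
  induction h generalizing φ with
  | zero =>
    rw [Lv] at hφ
    induction φ with
    | const c => rw [Lv]; trivial
    | var i => rw [Lv]; trivial
    | add a b iha ihb => rw [Lv]; exact ⟨iha hφ.1, ihb hφ.2⟩
    | mul a b iha ihb => rw [Lv]; exact ⟨iha hφ.1, ihb hφ.2⟩
    | inv a iha =>
      rw [Lv, Lv]
      exact hφ.1
  | succ h ih =>
    induction φ with
    | const c => rw [Lv]; trivial
    | var i => rw [Lv]; trivial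
    | add a b iha ihb =>
      rw [Lv] at hφ ⊢
      exact ⟨iha hφ.1, ihb hφ.2⟩
    | mul a b iha ihb =>
      rw [Lv] at hφ ⊢
      exact ⟨iha hφ.1, ihb hφ.2⟩
    | inv a iha =>
      rw [Lv] at hφ ⊢
      exact ih a hφ

end Pool.Agent.NCR
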