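import Mathlib
import Pool.Agent.NCR.Hom

/-!
NCR: the pencil of an inversion gate is invertible exactly when its argument is.
-/

set_option autoImplicit false

namespace Pool.Agent.NCR

open Pool.Agent.NCP

universe u

variable {K : Type u} [Field K] {n : ℕ}

theorem isUnit_oneM {R : Type*} [Ring R] (x : R) : IsUnit (oneM x) ↔ IsUnit x := by
  constructor
  · intro h
    obtain ⟨⟨a, b, h1, h2⟩, rfl : a = oneM x⟩ := h
    have h3 := congrFun (congrFun h1 ()) ()
    have h4 := congrFun (congrFun h2 ()) ()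
    simp [Matrix.mul_apply, oneM] at h3 h4
    exact ⟨⟨x, b () (), h3, h4⟩, rfl⟩
  · rintro ⟨⟨a, b, h1, h2⟩, rfl⟩
    refine ⟨⟨oneM a, oneM b, ?_, ?_⟩, rfl⟩
    · ext i j
      simp [oneM, Matrix.mul_apply, h1]
    · ext i j
      simp [oneM, Matrix.mul_apply, h2]

/-- A block matrix with an invertible upper left and a zero lower right corner. -/
theorem isUnit_blocks {ι : Type*} [Fintype ι] [DecidableEq ι] {R : Type*} [Ring R]
    (A P : Matrix ι ι R) (B : Matrix ι Unit R) (C : Matrix Unit ι R) (h1 : A * P = 1)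
    (h2 : P * A = 1) : IsUnit (Matrix.fromBlocks A B C 0) → IsUnit (C * P * B) := by
  rintro ⟨⟨U, W, hUW, hWU⟩, hU : U = _⟩
  subst hU
  rw [← Matrix.fromBlocks_toBlocks W] at hUW hWU
  rw [Matrix.fromBlocks_multiply, ← Matrix.fromBlocks_one] at hUW hWU
  obtain ⟨-, e2, -, e4⟩ := Matrix.fromBlocks_inj.1 hUW
  obtain ⟨-, -, e7, e8⟩ := Matrix.fromBlocks_inj.1 hWU
  set W12 := W.toBlocks₁₂
  set W21 := W.toBlocks₂₁
  set W22 := W.toBlocks₂₂
  have e9 : W12 = -(P * B * W22) := by
    have h3 : P * (A * W12 + B * W22) = P * (0 : Matrix ι Unit R) := by rw [e2]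
    rw [Matrix.mul_add, ← Matrix.mul_assoc, h2, Matrix.one_mul, Matrix.mul_zero,
      ← Matrix.mul_assoc] at h3
    exact eq_neg_of_add_eq_zero_left h3
  have e10 : W21 = -(W22 * C * P) := by
    have h3 : (W21 * A + W22 * C) * P = (0 : Matrix Unit ι R) * P := by rw [e7]
    rw [Matrix.add_mul, Matrix.mul_assoc, h1, Matrix.mul_one, Matrix.zero_mul] at h3
    exact eq_neg_of_add_eq_zero_left h3
  rw [Matrix.zero_mul, add_zero, e9, Matrix.mul_neg] at e4
  rw [Matrix.mul_zero, add_zero, e10, Matrix.neg_mul] at e8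
  refine ⟨⟨C * P * B, -W22, ?_, ?_⟩, rfl⟩
  · rw [Matrix.mul_neg, ← e4]
    simp only [Matrix.mul_assoc]
  · rw [Matrix.neg_mul, ← e8]
    simp only [Matrix.mul_assoc]

/-- The pencil of an inversion gate. -/
theorem linearise_inv (a : RExp K n) : ∃ (ι : Type) (_ : Fintype ι) (_ : DecidableEq ι)
    (A0 : Matrix ι ι K) (A : Fin n → Matrix ι ι K),
    Fintype.card ι ≤ 2 * (RExp.inv a).size ∧ ∀ (R : Type u) [Ring R] [Algebra K R] (Y : Fin n → R),
      a.Defined Y → (IsUnit (penG A0 A Y) ↔ IsUnit (a.eval Y)) := by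
  obtain ⟨ι, i1, i2, A0, A, u, v, hc, hA⟩ := linearise a
  refine ⟨ι ⊕ Unit, inferInstance, inferInstance,
      Matrix.fromBlocks A0 (Matrix.of fun a _ => v a) (Matrix.of fun _ a => u a)
        (0 : Matrix Unit Unit K),
      fun i => Matrix.fromBlocks (A i) 0 0 0, ?_, ?_⟩
  · rw [Fintype.card_sum, RExp.size, Fintype.card_unit]; omega
  · intro R _ _ Y hY
    constructor
    · intro h
      obtain ⟨P, hP1, hP2, hP3⟩ := hA R Y hY
      have hE : (Matrix.of fun a _ => v a : Matrix ι Unit K).map (algebraMap K R) = colM R v := by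
        ext a b; simp [colM]
      have hF : (Matrix.of fun _ a => u a : Matrix Unit ι K).map (algebraMap K R) = rowM R u := by
        ext a b; simp [rowM]
      have h0 : penG (0 : Matrix Unit Unit K) (fun _ => 0) Y = 0 := by
        ext a b; simp [penG]
      have hb : penG (Matrix.fromBlocks A0 (Matrix.of fun a _ => v a) (Matrix.of fun _ a => u a)
            (0 : Matrix Unit Unit K)) (fun i => Matrix.fromBlocks (A i) 0 0 0) Y =
          Matrix.fromBlocks (penG A0 A Y) (colM R v) (rowM R u) 0 := by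
        rw [← hE, ← hF, ← h0]
        exact penG_blocks A0 A (0 : Matrix Unit Unit K) (fun _ => 0) _ _ Y
      rw [hb] at h
      have h1 := isUnit_blocks _ P _ _ hP1 hP2 h
      rw [hP3] at h1
      exact (isUnit_oneM _).1 h1
    · intro h
      obtain ⟨B, h1, h2, -⟩ := rep_inv A0 A u v Y _ _ (hA R Y hY) (Ring.mul_inverse_cancel _ h)
        (Ring.inverse_mul_cancel _ h)
      exact ⟨⟨_, B, h1, h2⟩, rfl⟩

end Pool.Agent.NCR
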