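import Mathlib
import Pool.Agent.NCR.Inv

/-!
NCR: formulas defined at a matrix point.
-/

set_option autoImplicit false

namespace Pool.Agent.NCR

open Pool.Agent.NCP

universe u

variable {K : Type u} [Field K] {n : ℕ}

/-- The number of the variable `(i, a, b)`. -/
def enc {n k : ℕ} (i : Fin n) (a b : Fin k) : Fin (n * (k * k)) :=
  finProdFinEquiv (i, finProdFinEquiv (a, b))

/-- The point `α ⊗ 1 + ∑ e_ab ⊗ T_(i,a,b)`, as `k × k` matrices over `S`. -/
noncomputable def sub {k : ℕ} {S : Type*} [Ring S] [Algebra K S]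
    (α : Fin n → Matrix (Fin k) (Fin k) K) (T : Fin (n * (k * k)) → S) (i : Fin n) :
    Matrix (Fin k) (Fin k) S :=
  Matrix.of fun a b => algebraMap K S (α i a b) + T (enc i a b)

variable {k : ℕ} {ι : Type} [Fintype ι] [DecidableEq ι]

/-- The constant part of the pencil at a matrix point. -/
noncomputable def con (A0 : Matrix ι ι K) (A : Fin n → Matrix ι ι K)
    (α : Fin n → Matrix (Fin k) (Fin k) K) : Matrix (ι × Fin k) (ι × Fin k) K :=
  Matrix.comp ι ι (Fin k) (Fin k) K (penG A0 A α)

/-- The coefficients of the pencil at a matrix point. -/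
noncomputable def coe (A : Fin n → Matrix ι ι K) (v : Fin (n * (k * k))) :
    Matrix (ι × Fin k) (ι × Fin k) K :=
  Matrix.of fun p q => if enc (finProdFinEquiv.symm v).1 p.2 q.2 = v then
    A (finProdFinEquiv.symm v).1 p.1 q.1 else 0

omit [DecidableEq ι] in
theorem comp_mul {J S : Type*} [Fintype J] [DecidableEq J] [Ring S] (P Q : Matrix ι ι (Matrix J J S)) :
    Matrix.comp ι ι J J S (P * Q) = Matrix.comp ι ι J J S P * Matrix.comp ι ι J J S Q :=
  map_mul (Matrix.compRingEquiv ι J S) P Q

theorem comp_pen (A0 : Matrix ι ι K) (A : Fin n → Matrix ι ι K)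
    (α : Fin n → Matrix (Fin k) (Fin k) K) {S : Type*} [Ring S] [Algebra K S]
    (T : Fin (n * (k * k)) → S) :
    Matrix.comp ι ι (Fin k) (Fin k) S (penG A0 A (sub α T)) = penG (con A0 A α) (coe A) T := by
  ext ⟨a, c⟩ ⟨b, d⟩
  have h1 : ∑ v, coe (k := k) A v (a, c) (b, d) • T v = ∑ i, A i a b • T (enc i c d) := by
    rw [← Equiv.sum_comp (finProdFinEquiv : Fin n × Fin (k * k) ≃ Fin (n * (k * k))),
      Fintype.sum_prod_type]
    refine Finset.sum_congr rfl fun i _ => ?_
    rw [Finset.sum_eq_single (finProdFinEquiv (c, d))]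
    · simp [coe, enc]
    · intro w _ hw
      have h2 : coe (k := k) A (finProdFinEquiv (i, w)) (a, c) (b, d) = 0 := by
        rw [coe, Matrix.of_apply, Equiv.symm_apply_apply, if_neg]
        intro h3
        have h4 := finProdFinEquiv.injective h3
        exact hw (Prod.mk.inj h4).2.symm
      rw [h2, zero_smul]
    · intro h
      exact absurd (Finset.mem_univ _) h
  have h5 : con A0 A α (a, c) (b, d) =
      (if c = d then A0 a b else 0) + ∑ i, A i a b * α i c d := by
    rw [con, Matrix.comp_apply, penG, Matrix.of_apply, Matrix.add_apply, Matrix.sum_apply,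
      Matrix.algebraMap_matrix_apply]
    rfl
  have h6 : penG A0 A (sub α T) a b c d = (if c = d then algebraMap K S (A0 a b) else 0) +
      ∑ i, A i a b • (algebraMap K S (α i c d) + T (enc i c d)) := by
    rw [penG, Matrix.of_apply, Matrix.add_apply, Matrix.sum_apply, Matrix.algebraMap_matrix_apply]
    rfl
  rw [Matrix.comp_apply, h6, penG, Matrix.of_apply, h1, h5, map_add, map_sum]
  simp only [Algebra.smul_def, mul_add, Finset.sum_add_distrib, map_mul]
  by_cases hcd : c = d
  · rw [if_pos hcd, if_pos hcd]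
    abel
  · rw [if_neg hcd, if_neg hcd, map_zero]
    abel

/-- Entries of represented matrices. -/
theorem rep_entry (A0 : Matrix ι ι K) (A : Fin n → Matrix ι ι K) (u v : ι → K)
    (α : Fin n → Matrix (Fin k) (Fin k) K) {S : Type*} [Ring S] [Algebra K S]
    (T : Fin (n * (k * k)) → S) (x : Matrix (Fin k) (Fin k) S) (h : Rep A0 A u v (sub α T) x)
    (c d : Fin k) :
    Rep (con A0 A α) (coe A) (fun p => if p.2 = c then u p.1 else 0)
      (fun p => if p.2 = d then v p.1 else 0) T (x c d) := by
  obtain ⟨B, h1, h2, h3⟩ := h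
  refine ⟨Matrix.comp ι ι (Fin k) (Fin k) S B, ?_, ?_, ?_⟩
  · rw [← comp_pen, ← comp_mul, h1, Matrix.comp_one]
  · rw [← comp_pen, ← comp_mul, h2, Matrix.comp_one]
  · have h4 := congrFun (congrFun (congrFun (congrFun h3 ()) ()) c) d
    ext i j
    simp only [oneM, Matrix.of_apply] at h4 ⊢
    rw [← h4]
    simp only [Matrix.mul_apply, rowM, colM, Matrix.of_apply, Fintype.sum_prod_type,
      Matrix.comp_apply, Matrix.sum_apply, Matrix.algebraMap_matrix_apply]
    have e1 : ∀ (b : ι) (y : Fin k), ∑ a, ∑ x, algebraMap K S (if x = c then u a else 0) *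
        B a b x y = ∑ a, algebraMap K S (u a) * B a b c y := by
      intro b y
      refine Finset.sum_congr rfl fun a _ => ?_
      rw [Finset.sum_eq_single c]
      · rw [if_pos rfl]
      · intro x _ hx
        rw [if_neg hx, map_zero, zero_mul]
      · intro hx
        exact absurd (Finset.mem_univ _) hx
    have e2 : ∀ (b : ι) (y : Fin k), ∑ a, ∑ x, (if c = x then algebraMap K S (u a) else 0) *
        B a b x y = ∑ a, algebraMap K S (u a) * B a b c y := by
      intro b y
      refine Finset.sum_congr rfl fun a _ => ?_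
      rw [Finset.sum_eq_single c]
      · rw [if_pos rfl]
      · intro x _ hx
        rw [if_neg (fun h => hx h.symm), zero_mul]
      · intro hx
        exact absurd (Finset.mem_univ _) hx
    refine Finset.sum_congr rfl fun b _ => ?_
    rw [Finset.sum_eq_single d, Finset.sum_eq_single d]
    · rw [if_pos rfl, if_pos rfl, e1, e2]
    · intro y _ hy
      rw [if_neg hy, mul_zero]
    · intro hy
      exact absurd (Finset.mem_univ _) hy
    · intro y _ hy
      rw [if_neg hy, map_zero, mul_zero]
    · intro hy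
      exact absurd (Finset.mem_univ _) hy

theorem isUnit_comp {J S : Type*} [Fintype J] [DecidableEq J] [Ring S]
    (P : Matrix ι ι (Matrix J J S)) : IsUnit (Matrix.comp ι ι J J S P) ↔ IsUnit P :=
  MulEquiv.isUnit_map (Matrix.compRingEquiv ι J S).toMulEquiv

theorem isUnit_submatrix {I J S : Type*} [Fintype I] [DecidableEq I] [Fintype J] [DecidableEq J]
    [Ring S] (e : J ≃ I) (P : Matrix I I S) : IsUnit (P.submatrix e e) ↔ IsUnit P := by
  constructor
  · rintro ⟨⟨a, b, h1, h2⟩, h : a = _⟩
    refine ⟨⟨P, b.submatrix e.symm e.symm, ?_, ?_⟩, rfl⟩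
    · have h3 : P = a.submatrix e.symm e.symm := by
        rw [h]
        ext i j
        simp
      rw [h3, Matrix.submatrix_mul_equiv, h1, Matrix.submatrix_one_equiv]
    · have h3 : P = a.submatrix e.symm e.symm := by
        rw [h]
        ext i j
        simp
      rw [h3, Matrix.submatrix_mul_equiv, h2, Matrix.submatrix_one_equiv]
  · rintro ⟨⟨a, b, h1, h2⟩, h : a = _⟩
    refine ⟨⟨P.submatrix e e, b.submatrix e e, ?_, ?_⟩, rfl⟩
    · rw [← h, Matrix.submatrix_mul_equiv, h1, Matrix.submatrix_one_equiv]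
    · rw [← h, Matrix.submatrix_mul_equiv, h2, Matrix.submatrix_one_equiv]

/-- A pencil with invertible constant part is invertible at the explicit tuple. -/
theorem isUnit_penG_tup {V : ℕ} (A0 : Matrix ι ι K) (A : Fin V → Matrix ι ι K) (h : IsUnit A0)
    (M t : ℕ) : IsUnit (penG A0 A (tup K M t)) := by
  let e : ι ≃ Fin (Fintype.card ι) := Fintype.equivFin ι
  have hdet : IsUnit (A0.submatrix e.symm e.symm).det := by
    rw [Matrix.det_submatrix_equiv_self]
    exact (Matrix.isUnit_iff_isUnit_det _).1 h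
  have h1 := pen_tup (A0.submatrix e.symm e.symm) (fun i => (A i).submatrix e.symm e.symm) hdet M t
  have h2 : IsUnit (pen (A0.submatrix e.symm e.symm) (fun i => (A i).submatrix e.symm e.symm)
      (tup K M t)) := IsUnit.of_mul_eq_one _ h1
  have hp : pen (A0.submatrix e.symm e.symm) (fun i => (A i).submatrix e.symm e.symm)
      (tup K M t) = (penG A0 A (tup K M t)).submatrix e.symm e.symm := by
    ext a b
    rfl
  rw [hp] at h2
  exact (isUnit_submatrix e.symm _).1 h2

/-- A formula defined at `α` is defined at the explicit point over `α`. -/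
theorem shift_defined (α : Fin n → Matrix (Fin k) (Fin k) K) (φ : RExp K n) (h : φ.Defined α)
    (M t : ℕ) : φ.Defined (sub α (tup K M t)) := by
  induction φ with
  | const c => trivial
  | var i => trivial
  | add a b iha ihb => exact ⟨iha h.1, ihb h.2⟩
  | mul a b iha ihb => exact ⟨iha h.1, ihb h.2⟩
  | inv a iha =>
    refine ⟨iha h.1, ?_⟩
    obtain ⟨ι, i1, i2, A0, A, -, hA⟩ := linearise_inv a
    have h1 := (hA _ α h.1).2 h.2
    refine (hA _ _ (iha h.1)).1 ?_
    rw [← isUnit_comp, comp_pen]
    refine isUnit_penG_tup _ _ ?_ M t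
    rw [con]
    exact (isUnit_comp _).2 h1

/-- A formula defined at `α` which vanishes at the explicit point over `α` vanishes. -/
theorem shift_zero [CharZero K] (hk : 0 < k) (α : Fin n → Matrix (Fin k) (Fin k) K) (φ : RExp K n)
    (h : φ.Defined α) (M t : ℕ) (ht : 2 * φ.size * k ≤ t) (hM : n * (k * k) * t ^ 4 ≤ M)
    (h0 : φ.eval (sub α (tup K M t)) = 0) (N : ℕ) (Y : Fin n → Matrix (Fin N) (Fin N) K)
    (hY : φ.Defined Y) : φ.eval Y = 0 := by
  obtain ⟨ι, i1, i2, A0, A, u, v, hc, hA⟩ := linearise φ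
  let c : Fin k := ⟨0, hk⟩
  let e : ι × Fin k ≃ Fin (Fintype.card (ι × Fin k)) := Fintype.equivFin (ι × Fin k)
  have hcard : Fintype.card (ι × Fin k) ≤ t := by
    rw [Fintype.card_prod, Fintype.card_fin]
    exact (Nat.mul_le_mul_right k hc).trans ht
  -- the constant part
  have hcon : IsUnit (con A0 A α) := by
    obtain ⟨B, h1, h2, -⟩ := hA _ α h
    rw [con]
    exact (isUnit_comp _).2 ⟨⟨_, B, h1, h2⟩, rfl⟩
  have hdet : IsUnit ((con A0 A α).submatrix e.symm e.symm).det := by
    rw [Matrix.det_submatrix_equiv_self]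
    exact (Matrix.isUnit_iff_isUnit_det _).1 hcon
  -- the value at the explicit point
  have h1 := rep_entry A0 A u v α _ _ (hA _ _ (shift_defined α φ h M t)) c c
  obtain ⟨h2, h3⟩ := rep_fin _ _ _ _ _ _ h1 _ e
  rw [h0, Matrix.zero_apply] at h3
  have hfp := fp_zero_of_tup _ _ hdet _ _ t M hcard hM h2 h3
  -- the value at `Y`
  let f : Matrix (Fin N) (Fin N) K →ₐ[K] Matrix (Fin k) (Fin k) (Matrix (Fin N) (Fin N) K) :=
    Matrix.scalarAlgHom (Fin k) K
  obtain ⟨h4, h5⟩ := defined_hom f Y φ hY
  let T : Fin (n * (k * k)) → Matrix (Fin N) (Fin N) K := fun w =>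
    f (Y (finProdFinEquiv.symm w).1) (finProdFinEquiv.symm (finProdFinEquiv.symm w).2).1
      (finProdFinEquiv.symm (finProdFinEquiv.symm w).2).2 -
      algebraMap K _ (α (finProdFinEquiv.symm w).1 (finProdFinEquiv.symm (finProdFinEquiv.symm w).2).1
      (finProdFinEquiv.symm (finProdFinEquiv.symm w).2).2)
  have h6 : (fun i => f (Y i)) = sub α T := by
    funext i
    ext a b
    rw [sub, Matrix.of_apply]
    simp only [T, enc, Equiv.symm_apply_apply]
    rw [add_sub_cancel]
  rw [h6] at h4 h5
  have h7 := rep_entry A0 A u v α _ _ (hA _ _ h4) c c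
  obtain ⟨h8, h9⟩ := rep_fin _ _ _ _ _ _ h7 _ e
  rw [val_zero _ _ hdet _ _ hfp N T h8, h5] at h9
  have h10 : f (φ.eval Y) c c = φ.eval Y := by
    show Matrix.scalar (Fin k) (φ.eval Y) c c = _
    rw [Matrix.scalar_apply, Matrix.diagonal_apply_eq]
  rw [← h10, ← h9]

end Pool.Agent.NCR
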