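import Mathlib
import Pool.Agent.NCR.Shift

/-!
NCR: the points of a polynomial family at which a formula is defined are the nonzeros of a
polynomial.
-/

set_option autoImplicit false

namespace Pool.Agent.NCR

open Pool.Agent.NCP Polynomial

universe u

variable {K : Type u} [Field K] {n : ℕ} {A : Type u} [CommRing A] [Algebra K A]
  {J : Type} [Fintype J] [DecidableEq J]

/-- The pencil at a family of matrices over `A`, as one matrix. -/
noncomputable def PC {ι : Type} [Fintype ι] [DecidableEq ι] (A0 : Matrix ι ι K)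
    (B : Fin n → Matrix ι ι K) (X : Fin n → Matrix J J A) : Matrix (ι × J) (ι × J) A :=
  Matrix.comp ι ι J J A (penG A0 B X)

theorem penG_map {ι : Type} [Fintype ι] [DecidableEq ι] (A0 : Matrix ι ι K)
    (B : Fin n → Matrix ι ι K) {R S : Type*} [Ring R] [Algebra K R] [Ring S] [Algebra K S]
    (f : R →ₐ[K] S) (X : Fin n → R) :
    (penG A0 B X).map f = penG A0 B (fun i => f (X i)) := by
  ext a b
  simp [penG]

theorem PC_map {ι : Type} [Fintype ι] [DecidableEq ι] (A0 : Matrix ι ι K)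
    (B : Fin n → Matrix ι ι K) {A' : Type*} [CommRing A'] [Algebra K A'] (e : A →ₐ[K] A')
    (X : Fin n → Matrix J J A) :
    (PC A0 B X).map e = Matrix.comp ι ι J J A' (penG A0 B fun i => (X i).map e) := by
  have h := penG_map A0 B (e.mapMatrix (m := J)) X
  have h1 : (fun i => (e.mapMatrix (m := J)) (X i)) = fun i => (X i).map e := rfl
  rw [← h1, ← h]
  rfl

theorem isUnit_penG_iff {ι : Type} [Fintype ι] [DecidableEq ι] (A0 : Matrix ι ι K)
    (B : Fin n → Matrix ι ι K) (e : A →ₐ[K] K) (X : Fin n → Matrix J J A) :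
    IsUnit (penG A0 B fun i => (X i).map e) ↔ e (PC A0 B X).det ≠ 0 := by
  rw [← isUnit_comp, ← PC_map, Matrix.isUnit_iff_isUnit_det, isUnit_iff_ne_zero]
  have h : ((PC A0 B X).map e).det = e (PC A0 B X).det :=
    ((e : A →+* K).map_det (PC A0 B X)).symm
  rw [h]

/-- The points at which a formula is defined. -/
theorem exists_G (D : ℕ → A → Prop) (d : ℕ) (X : Fin n → Matrix J J A) (hD1 : D 0 1)
    (hDm : ∀ a b x y, D a x → D b y → D (a + b) (x * y)) (hmono : ∀ a b x, a ≤ b → D a x → D b x)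
    (hdet : ∀ (ι : Type) [Fintype ι] [DecidableEq ι] (A0 : Matrix ι ι K)
      (B : Fin n → Matrix ι ι K), D (Fintype.card ι * d) (PC A0 B X).det)
    (ψ : RExp K n) : ∃ G : A, D (2 * ψ.size ^ 2 * d) G ∧
      ∀ e : A →ₐ[K] K, e G ≠ 0 ↔ ψ.Defined fun i => (X i).map e := by
  induction ψ with
  | const c =>
    exact ⟨1, hmono _ _ _ (Nat.zero_le _) hD1, fun e => by simp [RExp.Defined]⟩
  | var i =>
    exact ⟨1, hmono _ _ _ (Nat.zero_le _) hD1, fun e => by simp [RExp.Defined]⟩
  | add a b iha ihb =>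
    obtain ⟨Ga, a1, a2⟩ := iha
    obtain ⟨Gb, b1, b2⟩ := ihb
    refine ⟨Ga * Gb, hmono _ _ _ ?_ (hDm _ _ _ _ a1 b1), fun e => ?_⟩
    · rw [RExp.size, ← Nat.add_mul]
      refine Nat.mul_le_mul_right d ?_
      nlinarith [Nat.zero_le (a.size * b.size)]
    · rw [map_mul, mul_ne_zero_iff, a2, b2]
      rfl
  | mul a b iha ihb =>
    obtain ⟨Ga, a1, a2⟩ := iha
    obtain ⟨Gb, b1, b2⟩ := ihb
    refine ⟨Ga * Gb, hmono _ _ _ ?_ (hDm _ _ _ _ a1 b1), fun e => ?_⟩
    · rw [RExp.size, ← Nat.add_mul]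
      refine Nat.mul_le_mul_right d ?_
      nlinarith [Nat.zero_le (a.size * b.size)]
    · rw [map_mul, mul_ne_zero_iff, a2, b2]
      rfl
  | inv a iha =>
    obtain ⟨Ga, a1, a2⟩ := iha
    obtain ⟨ι, i1, i2, A0, B, hc, hA⟩ := linearise_inv a
    refine ⟨Ga * (PC A0 B X).det, hmono _ _ _ ?_ (hDm _ _ _ _ a1 (hdet ι A0 B)), fun e => ?_⟩
    · rw [← Nat.add_mul]
      refine Nat.mul_le_mul_right d ?_
      rw [RExp.size] at hc ⊢
      nlinarith
    · rw [map_mul, mul_ne_zero_iff, a2]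
      constructor
      · rintro ⟨h1, h2⟩
        exact ⟨h1, (hA _ _ h1).1 ((isUnit_penG_iff A0 B e X).2 h2)⟩
      · rintro ⟨h1, h2⟩
        exact ⟨h1, (isUnit_penG_iff A0 B e X).1 ((hA _ _ h1).2 h2)⟩

/-- Determinants of matrices of polynomials. -/
theorem natDegree_det_le {R : Type*} [CommRing R] {m : Type*} [Fintype m] [DecidableEq m]
    (M : Matrix m m R[X]) (d : ℕ) (h : ∀ i j, (M i j).natDegree ≤ d) :
    M.det.natDegree ≤ Fintype.card m * d := by
  rw [Matrix.det_apply]
  refine Polynomial.natDegree_sum_le_of_forall_le _ _ ?_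
  intro π _
  refine (Polynomial.natDegree_smul_le _ _).trans ?_
  refine (Polynomial.natDegree_prod_le _ _).trans ?_
  calc ∑ i, (M (π i) i).natDegree ≤ ∑ _i : m, d := Finset.sum_le_sum fun i _ => h _ _
    _ = Fintype.card m * d := by rw [Finset.sum_const, Finset.card_univ, smul_eq_mul]

theorem natDegree_PC {ι : Type} [Fintype ι] [DecidableEq ι] (A0 : Matrix ι ι K)
    (B : Fin n → Matrix ι ι K) (X : Fin n → Matrix J J K[X]) (d : ℕ)
    (h : ∀ i p q, (X i p q).natDegree ≤ d) (p q : ι × J) : (PC A0 B X p q).natDegree ≤ d := by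
  have h1 : PC A0 B X p q = algebraMap K (Matrix J J K[X]) (A0 p.1 q.1) p.2 q.2 +
      ∑ i, B i p.1 q.1 • X i p.2 q.2 := by
    rw [PC, Matrix.comp_apply, penG, Matrix.of_apply, Matrix.add_apply, Matrix.sum_apply]
    rfl
  rw [h1]
  refine (Polynomial.natDegree_add_le _ _).trans (max_le ?_ ?_)
  · rw [Matrix.algebraMap_matrix_apply]
    split_ifs
    · have : (algebraMap K K[X] (A0 p.1 q.1)).natDegree = 0 := by
        rw [Polynomial.algebraMap_eq, Polynomial.natDegree_C]
      omega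
    · simp
  · refine Polynomial.natDegree_sum_le_of_forall_le _ _ fun i _ => ?_
    exact (Polynomial.natDegree_smul_le _ _).trans (h i _ _)

/-- One parameter can be chosen to be a small natural number. -/
theorem small_param [CharZero K] (X : Fin n → Matrix J J K[X]) (d : ℕ)
    (h : ∀ i p q, (X i p q).natDegree ≤ d) (ψ : RExp K n) (x : K)
    (hx : ψ.Defined fun i => (X i).map (Polynomial.aeval x)) (B : ℕ)
    (hB : 2 * ψ.size ^ 2 * (Fintype.card J * d) ≤ B) :
    ∃ c : ℕ, c ≤ B ∧ ψ.Defined fun i => (X i).map (Polynomial.aeval (c : K)) := by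
  obtain ⟨G, h1, h2⟩ := exists_G (fun r g => g.natDegree ≤ r) (Fintype.card J * d) X
    (by simp) (fun a b x y hx hy => (Polynomial.natDegree_mul_le).trans (Nat.add_le_add hx hy))
    (fun a b x hab hx => hx.trans hab) (fun ι _ _ A0 B' => by
      have := natDegree_det_le (PC A0 B' X) d (natDegree_PC A0 B' X d h)
      rwa [Fintype.card_prod, mul_assoc] at this) ψ
  have hG : G ≠ 0 := by
    rintro rfl
    exact (h2 _).2 hx (map_zero _)
  by_contra hcon
  push Not at hcon
  apply hG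
  refine Polynomial.eq_zero_of_natDegree_lt_card_of_eval_eq_zero (ι := Fin (B + 1)) G
    (f := fun x => ((x : ℕ) : K)) ?_ ?_ ?_
  · intro a b hab
    exact Fin.ext (Nat.cast_injective hab)
  · intro c
    by_contra h3
    refine hcon (c : ℕ) (by omega) ((h2 (Polynomial.aeval ((c : ℕ) : K))).1 ?_)
    rw [Polynomial.coe_aeval_eq_eval]
    exact h3
  · rw [Fintype.card_fin]
    omega

end Pool.Agent.NCR
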