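import Mathlib

/-!
NCR: matrices of polynomials in two variables with a cyclic symmetry have nonzero determinant.
-/

set_option autoImplicit false

namespace Pool.Agent.NCR

open Polynomial

/-- The lowest coefficient of a matrix of polynomials. -/
theorem low_det {R : Type*} [CommRing R] [IsDomain R] {m : Type*} [Fintype m] [DecidableEq m]
    (M : Matrix m m R[X]) (k : ℕ) (h : ∀ i j, ∀ l < k, (M i j).coeff l = 0)
    (hd : (M.map fun f => f.coeff k).det ≠ 0) : M.det ≠ 0 := by
  have h1 : ∀ i j, ∃ b : R[X], M i j = X ^ k * b := fun i j =>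
    Polynomial.X_pow_dvd_iff.2 (h i j)
  choose b hb using h1
  have h2 : M = (X ^ k : R[X]) • Matrix.of b := by
    ext1 i j
    rw [Matrix.smul_apply, Matrix.of_apply, smul_eq_mul, hb]
  have h3 : (M.map fun f => f.coeff k) = (constantCoeff (R := R)).mapMatrix (Matrix.of b) := by
    ext i j
    rw [Matrix.map_apply, hb, RingHom.mapMatrix_apply, Matrix.map_apply, Matrix.of_apply,
      Polynomial.constantCoeff_apply]
    have h4 := Polynomial.coeff_X_pow_mul (b i j) k 0
    rwa [zero_add] at h4
  rw [h3, ← RingHom.map_det] at hd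
  rw [h2, Matrix.det_smul]
  refine mul_ne_zero (pow_ne_zero _ (pow_ne_zero _ Polynomial.X_ne_zero)) ?_
  intro h5
  rw [h5, map_zero] at hd
  exact hd rfl

variable {K : Type*} [Field K] {N : ℕ} [NeZero N]

theorem val_nsmul_one (t : ℕ) : ((t • (1 : Fin N) : Fin N) : ℕ) = t % N := by
  induction t with
  | zero => simp
  | succ t ih =>
    rw [succ_nsmul, Fin.val_add, ih]
    rcases Nat.lt_or_ge 1 N with h | h
    · have h1 : ((1 : Fin N) : ℕ) = 1 := by
        rw [Fin.val_one']
        exact Nat.mod_eq_of_lt h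
      rw [h1, Nat.mod_add_mod]
    · have h2 : N = 1 := by
        have := NeZero.pos N
        omega
      subst h2
      simp [Nat.mod_one]

theorem eq_nsmul_one (x : Fin N) : (x : ℕ) • (1 : Fin N) = x := by
  apply Fin.ext
  rw [val_nsmul_one]
  exact Nat.mod_eq_of_lt x.2

/-- Matrices supported on a cyclic diagonal. -/
theorem mono_det (M : Matrix (Fin N) (Fin N) K) (c : Fin N) (z : K) (hz : z ≠ 0)
    (h1 : ∀ p q, p - q ≠ c → M p q = 0) (h2 : ∀ p q, M (p + 1) (q + 1) = z * M p q)
    (h3 : M ≠ 0) : M.det ≠ 0 := by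
  obtain ⟨p0, q0, h4⟩ : ∃ p q, M p q ≠ 0 := by
    by_contra hcon
    push Not at hcon
    exact h3 (by ext p q; exact hcon p q)
  have h5 : q0 = p0 - c := by
    have h6 : p0 - q0 = c := by
      by_contra h7
      exact h4 (h1 _ _ h7)
    rw [← h6]
    abel
  have h8 : ∀ t : ℕ, M (p0 + t • (1 : Fin N)) (p0 + t • (1 : Fin N) - c) ≠ 0 := by
    intro t
    induction t with
    | zero =>
      rw [zero_nsmul, add_zero, ← h5]
      exact h4
    | succ t ih =>
      have e1 : p0 + (t + 1) • (1 : Fin N) = (p0 + t • (1 : Fin N)) + 1 := by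
        rw [succ_nsmul]
        abel
      have e2 : p0 + t • (1 : Fin N) + 1 - c = (p0 + t • (1 : Fin N) - c) + 1 := by abel
      rw [e1, e2, h2]
      exact mul_ne_zero hz ih
  have h9 : ∀ p : Fin N, M p (p - c) ≠ 0 := by
    intro p
    have h10 := h8 ((p - p0 : Fin N) : ℕ)
    rw [eq_nsmul_one] at h10
    have h11 : p0 + (p - p0) = p := by abel
    rwa [h11] at h10
  intro hdet
  obtain ⟨v, hv, hv0⟩ := Matrix.exists_mulVec_eq_zero_iff.2 hdet
  apply hv
  funext q
  have h12 := congrFun hv0 (q + c)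
  rw [Matrix.mulVec, dotProduct, Finset.sum_eq_single q] at h12
  · have h13 := h9 (q + c)
    rw [add_sub_cancel_right] at h13
    exact (mul_eq_zero.1 h12).resolve_left h13
  · intro b _ hb
    rw [h1, zero_mul]
    intro h14
    apply hb
    have h15 : b = q + c - (q + c - b) := by abel
    rw [h15, h14]
    abel
  · intro h14
    exact absurd (Finset.mem_univ _) h14

/-- A nonzero matrix of polynomials in two variables all of whose coefficient matrices have the
cyclic symmetry has nonzero determinant. -/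
theorem sym_det (ζ : K) (hζ : IsPrimitiveRoot ζ N) (M : Matrix (Fin N) (Fin N) K[X][X])
    (h1 : ∀ k j p q, ((M (p + 1) (q + 1)).coeff k).coeff j = ζ ^ j * ((M p q).coeff k).coeff j)
    (h2 : ∀ k j p q, ((M p q).coeff k).coeff j ≠ 0 → ζ ^ k = ζ ^ ((p - q : Fin N) : ℕ))
    (h3 : M ≠ 0) : M.det ≠ 0 := by
  classical
  have hN : 0 < N := NeZero.pos N
  have hz : ζ ≠ 0 := hζ.ne_zero hN.ne'
  -- the lowest coefficient in the outer variable
  have hex : ∃ k, ∃ p q, (M p q).coeff k ≠ 0 := by
    by_contra hcon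
    push Not at hcon
    apply h3
    ext1 p q
    exact Polynomial.ext fun k => by rw [hcon k p q]; simp
  obtain ⟨p1, q1, hk⟩ := Nat.find_spec hex
  have hk' : ∀ p q, ∀ l < Nat.find hex, (M p q).coeff l = 0 := by
    intro p q l hl
    by_contra h4
    exact Nat.find_min hex hl ⟨p, q, h4⟩
  generalize Nat.find hex = k at hk hk'
  refine low_det M k hk' ?_
  -- the lowest coefficient in the inner variable
  have hex2 : ∃ j, ∃ p q, ((M p q).coeff k).coeff j ≠ 0 := by
    by_contra hcon
    push Not at hcon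
    apply hk
    exact Polynomial.ext fun j => by rw [hcon j p1 q1]; simp
  obtain ⟨p2, q2, hj⟩ := Nat.find_spec hex2
  have hj' : ∀ p q, ∀ l < Nat.find hex2, ((M p q).coeff k).coeff l = 0 := by
    intro p q l hl
    by_contra h4
    exact Nat.find_min hex2 hl ⟨p, q, h4⟩
  generalize Nat.find hex2 = j at hj hj'
  refine low_det _ j hj' ?_
  refine mono_det _ (p2 - q2) (ζ ^ j) (pow_ne_zero _ hz) ?_ ?_ ?_
  · intro p q hpq
    rw [Matrix.map_apply, Matrix.map_apply]
    by_contra h4
    have h5 := h2 k j p q h4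
    have h6 := h2 k j p2 q2 hj
    have h7 : ((p - q : Fin N) : ℕ) = ((p2 - q2 : Fin N) : ℕ) :=
      hζ.pow_inj (p - q).2 (p2 - q2).2 (h5.symm.trans h6)
    exact hpq (Fin.ext h7)
  · intro p q
    exact h1 k j p q
  · intro h4
    apply hj
    exact congrFun (congrFun h4 p2) q2

end Pool.Agent.NCR
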