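import Mathlib
import Pool.Agent.NCR.Gpoly
import Pool.Agent.NCR.Sym

/-!
NCR: the twist of a tuple of matrices; nonzero values become invertible.
-/

set_option autoImplicit false

namespace Pool.Agent.NCR

open Pool.Agent.NCP Polynomial

universe u

variable {K : Type u} [Field K] {n N : ℕ} [NeZero N]

/-- The twist of a matrix by two parameters. -/
noncomputable def tw {A : Type*} [CommRing A] [Algebra K A] (ζ : K) (τ μ : A)
    (B : Matrix (Fin N) (Fin N) A) : Matrix (Fin N) (Fin N) A :=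
  Matrix.of fun p q => μ ^ ((p - q : Fin N) : ℕ) * (algebraMap K A (N : K)⁻¹ *
    ∑ a : Fin N, ∑ j : Fin N, τ ^ (j : ℕ) * algebraMap K A (ζ⁻¹ ^ ((j : ℕ) * (a : ℕ))) *
      B (p + a) (q + a))

theorem tw_map {A A' : Type*} [CommRing A] [Algebra K A] [CommRing A'] [Algebra K A']
    (e : A →ₐ[K] A') (ζ : K) (τ μ : A) (B : Matrix (Fin N) (Fin N) A) :
    (tw ζ τ μ B).map e = tw ζ (e τ) (e μ) (B.map e) := by
  ext p q
  simp [tw, map_sum, map_mul, map_pow]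

/-- At the parameters `1, 1` the twist is the given matrix. -/
theorem tw_one [CharZero K] (ζ : K) (hζ : IsPrimitiveRoot ζ N) (B : Matrix (Fin N) (Fin N) K) :
    tw ζ (1 : K) (1 : K) B = B := by
  have hN : 0 < N := NeZero.pos N
  have hz : ζ ≠ 0 := hζ.ne_zero hN.ne'
  have hN' : (N : K) ≠ 0 := Nat.cast_ne_zero.2 hN.ne'
  have h0 : ∀ a : Fin N, a ≠ 0 → ∑ j : Fin N, ζ⁻¹ ^ ((j : ℕ) * (a : ℕ)) = 0 := by
    intro a ha
    have h1 : ζ⁻¹ ^ (a : ℕ) ≠ 1 := by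
      intro h2
      rw [inv_pow, inv_eq_one] at h2
      have h3 : ((a : ℕ)) = 0 := by
        have h4 := hζ.dvd_of_pow_eq_one _ h2
        exact Nat.eq_zero_of_dvd_of_lt h4 a.2
      exact ha (Fin.ext (by simpa using h3))
    have h2 : ∑ j : Fin N, ζ⁻¹ ^ ((j : ℕ) * (a : ℕ)) =
        ∑ j ∈ Finset.range N, (ζ⁻¹ ^ (a : ℕ)) ^ j := by
      rw [Finset.sum_range]
      exact Finset.sum_congr rfl fun j _ => by rw [← pow_mul, mul_comm]
    have h3 : (ζ⁻¹ ^ (a : ℕ)) ^ N = 1 := by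
      rw [← pow_mul, mul_comm, pow_mul, inv_pow, hζ.pow_eq_one, inv_one, one_pow]
    have h4 := mul_neg_geom_sum (ζ⁻¹ ^ (a : ℕ)) N
    rw [h3, sub_self] at h4
    rw [h2]
    exact (mul_eq_zero.1 h4).resolve_left (sub_ne_zero.2 (Ne.symm h1))
  ext p q
  rw [tw, Matrix.of_apply, one_pow, one_mul, Finset.sum_eq_single 0]
  · have h5 : ∑ j : Fin N, (1 : K) ^ (j : ℕ) * algebraMap K K (ζ⁻¹ ^ ((j : ℕ) * ((0 : Fin N) : ℕ))) *
        B (p + 0) (q + 0) = N * B p q := by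
      simp
    rw [h5, ← mul_assoc]
    show (N : K)⁻¹ * (N : K) * _ = _
    rw [inv_mul_cancel₀ hN', one_mul]
  · intro a _ ha
    have h6 := h0 a ha
    have h7 : ∑ j : Fin N, (1 : K) ^ (j : ℕ) * algebraMap K K (ζ⁻¹ ^ ((j : ℕ) * (a : ℕ))) *
        B (p + a) (q + a) = (∑ j : Fin N, ζ⁻¹ ^ ((j : ℕ) * (a : ℕ))) * B (p + a) (q + a) := by
      rw [Finset.sum_mul]
      refine Finset.sum_congr rfl fun j _ => ?_
      rw [one_pow, one_mul]
      rfl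
    rw [h7, h6, zero_mul]
  · intro h
    exact absurd (Finset.mem_univ _) h

/-- Multiplying the first parameter by `ζ`. -/
theorem tw_shift {A : Type*} [CommRing A] [Algebra K A] (ζ : K) (hζ : IsPrimitiveRoot ζ N)
    (τ μ : A) (B : Matrix (Fin N) (Fin N) A) (p q : Fin N) :
    tw ζ (algebraMap K A ζ * τ) μ B p q = tw ζ τ μ B (p + 1) (q + 1) := by
  have hN : 0 < N := NeZero.pos N
  have hz : ζ ≠ 0 := hζ.ne_zero hN.ne'
  rw [tw, Matrix.of_apply, tw, Matrix.of_apply, add_sub_add_right_eq_sub]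
  congr 2
  rw [← Equiv.sum_comp (Equiv.addRight (1 : Fin N))]
  refine Finset.sum_congr rfl fun a _ => Finset.sum_congr rfl fun j _ => ?_
  rw [Equiv.coe_addRight]
  have h1 : ζ⁻¹ ^ ((j : ℕ) * ((a + 1 : Fin N) : ℕ)) = ζ⁻¹ ^ ((j : ℕ) * ((a : ℕ) + 1)) := by
    have h2 : ζ⁻¹ ^ ((a + 1 : Fin N) : ℕ) = ζ⁻¹ ^ ((a : ℕ) + 1) := by
      have h3 : ζ⁻¹ ^ N = 1 := by rw [inv_pow, hζ.pow_eq_one, inv_one]
      have h4 : ((a + 1 : Fin N) : ℕ) = ((a : ℕ) + 1) % N := by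
        rw [Fin.val_add]
        have h5 := val_nsmul_one (N := N) 1
        rw [one_nsmul] at h5
        rw [h5, Nat.add_mod_mod]
      rw [h4, ← pow_mod_orderOf, ← pow_mod_orderOf ζ⁻¹ ((a : ℕ) + 1)]
      congr 1
      have h6 : orderOf ζ⁻¹ ∣ N := orderOf_dvd_of_pow_eq_one h3
      rw [Nat.mod_mod_of_dvd _ h6]
    rw [mul_comm, pow_mul, h2, ← pow_mul, mul_comm]
  rw [h1, mul_pow, ← map_pow]
  have h7 : p + (a + 1) = p + 1 + a := by abel
  have h8 : q + (a + 1) = q + 1 + a := by abel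
  rw [h7, h8]
  have h9 : algebraMap K A (ζ ^ (j : ℕ)) * algebraMap K A (ζ⁻¹ ^ ((j : ℕ) * ((a : ℕ) + 1))) =
      algebraMap K A (ζ⁻¹ ^ ((j : ℕ) * (a : ℕ))) := by
    rw [← map_mul, mul_add, mul_one, pow_add, mul_comm (ζ⁻¹ ^ ((j : ℕ) * (a : ℕ))), ← mul_assoc,
      ← mul_pow, mul_inv_cancel₀ hz, one_pow, one_mul]
  calc algebraMap K A (ζ ^ (j : ℕ)) * τ ^ (j : ℕ) *
        algebraMap K A (ζ⁻¹ ^ ((j : ℕ) * ((a : ℕ) + 1))) * B (p + 1 + a) (q + 1 + a) =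
      τ ^ (j : ℕ) * (algebraMap K A (ζ ^ (j : ℕ)) *
        algebraMap K A (ζ⁻¹ ^ ((j : ℕ) * ((a : ℕ) + 1)))) * B (p + 1 + a) (q + 1 + a) := by ring
    _ = _ := by rw [h9]

/-- Multiplying the second parameter by `ζ`. -/
theorem tw_clock {A : Type*} [CommRing A] [Algebra K A] (ζ : K)
    (τ μ : A) (B : Matrix (Fin N) (Fin N) A) (p q : Fin N) :
    tw ζ τ (algebraMap K A ζ * μ) B p q =
      algebraMap K A (ζ ^ ((p - q : Fin N) : ℕ)) * tw ζ τ μ B p q := by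
  rw [tw, Matrix.of_apply, tw, Matrix.of_apply, mul_pow, map_pow, mul_assoc]

end Pool.Agent.NCR
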