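import Mathlib
import Pool.Agent.NCR.Twist

/-!
NCR: a formula which is defined and nonzero at a tuple is defined and invertible at a twist of it.
-/

set_option autoImplicit false

namespace Pool.Agent.NCR

open Pool.Agent.NCP Polynomial

universe u

variable {K : Type u} [Field K] {n N : ℕ} [NeZero N]

/-- `τ ↦ ζ τ`, the inner variable. -/
noncomputable def s1 (ζ : K) : K[X][X] →ₐ[K] K[X][X] :=
  Polynomial.mapAlgHom (Polynomial.aeval (C ζ * X : K[X]))

/-- `μ ↦ ζ μ`, the outer variable. -/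
noncomputable def s2 (ζ : K) : K[X][X] →ₐ[K] K[X][X] :=
  (Polynomial.aeval (C (C ζ) * X : K[X][X]) : K[X][X] →ₐ[K[X]] K[X][X]).restrictScalars K

theorem s1_coeff (ζ : K) (f : K[X][X]) (k j : ℕ) :
    ((s1 ζ f).coeff k).coeff j = ζ ^ j * ((f.coeff k).coeff j) := by
  have h1 : (s1 ζ f).coeff k = (f.coeff k).comp (C ζ * X) := by
    rw [s1, Polynomial.coe_mapAlgHom, Polynomial.coeff_map]
    rfl
  rw [h1, Polynomial.comp_C_mul_X_coeff, mul_comm]

theorem s2_coeff (ζ : K) (f : K[X][X]) (k : ℕ) :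
    (s2 ζ f).coeff k = C (ζ ^ k) * f.coeff k := by
  have h1 : s2 ζ f = f.comp (C (C ζ) * X) := rfl
  rw [h1, Polynomial.comp_C_mul_X_coeff, mul_comm, map_pow]

/-- The generic twist. -/
noncomputable def gtw (ζ : K) (B : Matrix (Fin N) (Fin N) K) : Matrix (Fin N) (Fin N) K[X][X] :=
  tw ζ (C X) X (B.map (algebraMap K K[X][X]))

/-- The point `(τ, μ)`. -/
noncomputable def pt (τ μ : K) : K[X][X] →ₐ[K] K :=
  (Polynomial.aeval τ : K[X] →ₐ[K] K).comp
    ((Polynomial.aeval (C μ : K[X]) : K[X][X] →ₐ[K[X]] K[X]).restrictScalars K)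

theorem pt_eq (τ μ : K) (f : K[X][X]) : pt τ μ f = (f.map (Polynomial.evalRingHom τ)).eval μ := by
  have h1 : pt τ μ f = (f.eval (C μ)).eval τ := rfl
  rw [h1, Polynomial.eval_map, Polynomial.eval₂_eq_sum_range, Polynomial.eval_eq_sum_range (x := C μ),
    Polynomial.eval_finsetSum]
  refine Finset.sum_congr rfl fun k _ => ?_
  rw [Polynomial.eval_mul, Polynomial.eval_pow, Polynomial.eval_C]
  rfl

theorem pt_gtw (ζ : K) (B : Matrix (Fin N) (Fin N) K) (τ μ : K) :
    (gtw ζ B).map (pt τ μ) = tw ζ τ μ B := by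
  rw [gtw, tw_map]
  have h1 : pt τ μ (C X) = τ := by
    show Polynomial.aeval τ (Polynomial.aeval (C μ : K[X]) (C X : K[X][X])) = τ
    rw [Polynomial.aeval_C, Algebra.algebraMap_self, RingHom.id_apply, Polynomial.aeval_X]
  have h2 : pt τ μ X = μ := by
    show Polynomial.aeval τ (Polynomial.aeval (C μ : K[X]) (X : K[X][X])) = μ
    rw [Polynomial.aeval_X, Polynomial.aeval_C]
    rfl
  have h3 : (B.map (algebraMap K K[X][X])).map (pt τ μ) = B := by
    ext p q
    rw [Matrix.map_apply, Matrix.map_apply, AlgHom.commutes]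
    rfl
  rw [h1, h2, h3]

theorem s1_gtw (ζ : K) (hζ : IsPrimitiveRoot ζ N) (B : Matrix (Fin N) (Fin N) K) (p q : Fin N) :
    s1 ζ (gtw ζ B p q) = gtw ζ B (p + 1) (q + 1) := by
  have h := congrFun (congrFun (tw_map (s1 ζ) ζ (C X) X (B.map (algebraMap K K[X][X]))) p) q
  have h1 : s1 ζ (C X) = algebraMap K K[X][X] ζ * C X := by
    rw [s1, Polynomial.coe_mapAlgHom, Polynomial.map_C]
    show C ((Polynomial.aeval (C ζ * X : K[X])) (X : K[X])) = _
    rw [Polynomial.aeval_X, map_mul]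
    rfl
  have h2 : s1 ζ (X : K[X][X]) = X := by
    rw [s1, Polynomial.coe_mapAlgHom, Polynomial.map_X]
  have h3 : (B.map (algebraMap K K[X][X])).map (s1 ζ) = B.map (algebraMap K K[X][X]) := by
    ext1 p q
    rw [Matrix.map_apply, Matrix.map_apply, AlgHom.commutes]
  rw [h1, h2, h3, tw_shift ζ hζ] at h
  exact h

theorem s2_gtw (ζ : K) (B : Matrix (Fin N) (Fin N) K) (p q : Fin N) :
    s2 ζ (gtw ζ B p q) = algebraMap K K[X][X] (ζ ^ ((p - q : Fin N) : ℕ)) * gtw ζ B p q := by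
  have h := congrFun (congrFun (tw_map (s2 ζ) ζ (C X) X (B.map (algebraMap K K[X][X]))) p) q
  have h1 : s2 ζ (C X) = C X := by
    show Polynomial.aeval (C (C ζ) * X : K[X][X]) (C X : K[X][X]) = C X
    rw [Polynomial.aeval_C]
    rfl
  have h2 : s2 ζ (X : K[X][X]) = algebraMap K K[X][X] ζ * X := by
    show Polynomial.aeval (C (C ζ) * X : K[X][X]) (X : K[X][X]) = _
    rw [Polynomial.aeval_X]
    rfl
  have h3 : (B.map (algebraMap K K[X][X])).map (s2 ζ) = B.map (algebraMap K K[X][X]) := by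
    ext1 p q
    rw [Matrix.map_apply, Matrix.map_apply, AlgHom.commutes]
  rw [h1, h2, h3, tw_clock ζ] at h
  exact h

section adj

variable {ι : Type} [Fintype ι] [DecidableEq ι]

/-- The numerator of a formula at a family. -/
noncomputable def num {A : Type u} [CommRing A] [Algebra K A] (A0 : Matrix ι ι K)
    (B : Fin n → Matrix ι ι K) (u v : ι → K) (X : Fin n → Matrix (Fin N) (Fin N) A) :
    Matrix (Fin N) (Fin N) A :=
  Matrix.of fun p q => ∑ a, ∑ b, algebraMap K A (u a * v b) * (PC A0 B X).adjugate (a, p) (b, q)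

theorem num_rep (A0 : Matrix ι ι K) (B : Fin n → Matrix ι ι K) (u v : ι → K)
    (Y : Fin n → Matrix (Fin N) (Fin N) K) (x : Matrix (Fin N) (Fin N) K)
    (h : Rep A0 B u v Y x) : num A0 B u v Y = (PC A0 B Y).det • x := by
  obtain ⟨Q, h1, h2, h3⟩ := h
  have h4 : Matrix.comp ι ι (Fin N) (Fin N) K Q * PC A0 B Y = 1 := by
    rw [PC, ← comp_mul, h2, Matrix.comp_one]
  have h5 : (PC A0 B Y).adjugate = (PC A0 B Y).det • Matrix.comp ι ι (Fin N) (Fin N) K Q := by
    calc (PC A0 B Y).adjugate = (Matrix.comp ι ι (Fin N) (Fin N) K Q * PC A0 B Y) *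
          (PC A0 B Y).adjugate := by rw [h4, Matrix.one_mul]
      _ = _ := by rw [Matrix.mul_assoc, Matrix.mul_adjugate, Matrix.mul_smul, Matrix.mul_one]
  ext p q
  have h6 := congrFun (congrFun (congrFun (congrFun h3 ()) ()) p) q
  simp only [oneM, Matrix.of_apply] at h6
  rw [num, Matrix.of_apply, Matrix.smul_apply, ← h6, h5]
  simp only [Matrix.mul_apply, rowM, colM, Matrix.of_apply, Matrix.sum_apply,
    Matrix.algebraMap_matrix_apply, Matrix.smul_apply, Matrix.comp_apply, smul_eq_mul]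
  have e1 : ∀ b y, ∑ a, ∑ x, (if p = x then algebraMap K K (u a) else 0) * Q a b x y =
      ∑ a, u a * Q a b p y := by
    intro b y
    refine Finset.sum_congr rfl fun a _ => ?_
    rw [Finset.sum_eq_single p]
    · rw [if_pos rfl]
      rfl
    · intro x _ hx
      rw [if_neg (fun h => hx h.symm), zero_mul]
    · intro hx
      exact absurd (Finset.mem_univ _) hx
  rw [Finset.sum_comm, Finset.mul_sum]
  refine Finset.sum_congr rfl fun b _ => ?_
  rw [Finset.sum_eq_single q]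
  · rw [if_pos rfl, e1, Finset.sum_mul, Finset.mul_sum]
    refine Finset.sum_congr rfl fun a _ => ?_
    show u a * v b * _ = _ * (_ * v b)
    ring
  · intro y _ hy
    rw [if_neg hy, mul_zero]
  · intro hy
    exact absurd (Finset.mem_univ _) hy

theorem num_map {A A' : Type u} [CommRing A] [Algebra K A] [CommRing A'] [Algebra K A']
    (e : A →ₐ[K] A') (A0 : Matrix ι ι K) (B : Fin n → Matrix ι ι K) (u v : ι → K)
    (X : Fin n → Matrix (Fin N) (Fin N) A) :
    (num A0 B u v X).map e = num A0 B u v fun i => (X i).map e := by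
  have h1 : (PC A0 B X).adjugate.map e = (PC A0 B fun i => (X i).map e).adjugate := by
    have h2 := (e : A →+* A').map_adjugate (PC A0 B X)
    have h3 : PC A0 B (fun i => (X i).map e) = (PC A0 B X).map e := (PC_map A0 B e X).symm
    rw [h3]
    exact h2
  ext p q
  rw [Matrix.map_apply, num, Matrix.of_apply, num, Matrix.of_apply, ← h1]
  simp only [map_sum, map_mul, Matrix.map_apply, AlgHom.commutes]

/-- The symmetry under `τ ↦ ζ τ`. -/
theorem num_shift {A : Type u} [CommRing A] [Algebra K A] (A0 : Matrix ι ι K)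
    (B : Fin n → Matrix ι ι K) (u v : ι → K) (X : Fin n → Matrix (Fin N) (Fin N) A) (p q : Fin N) :
    num A0 B u v (fun i => (X i).submatrix (· + 1) (· + 1)) p q = num A0 B u v X (p + 1) (q + 1) := by
  let e : ι × Fin N ≃ ι × Fin N := Equiv.prodCongr (Equiv.refl ι) (Equiv.addRight 1)
  have h1 : PC A0 B (fun i => (X i).submatrix (· + 1) (· + 1)) = (PC A0 B X).submatrix e e := by
    ext ⟨a, p⟩ ⟨b, q⟩
    simp [PC, penG, e, Matrix.sum_apply, Matrix.algebraMap_matrix_apply]
  rw [num, Matrix.of_apply, num, Matrix.of_apply, h1, Matrix.adjugate_submatrix_equiv_self]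
  rfl

/-- The symmetry under `μ ↦ ζ μ`. -/
theorem num_clock {A : Type u} [CommRing A] [Algebra K A] (A0 : Matrix ι ι K)
    (B : Fin n → Matrix ι ι K) (u v : ι → K) (X : Fin n → Matrix (Fin N) (Fin N) A) (c c' : Fin N → A)
    (hc : ∀ p, c p * c' p = 1) (p q : Fin N) :
    num A0 B u v (fun i => Matrix.of fun p q => c p * c' q * X i p q) p q =
      c p * c' q * num A0 B u v X p q := by
  let D : Matrix (ι × Fin N) (ι × Fin N) A := Matrix.diagonal fun r => c r.2
  let D' : Matrix (ι × Fin N) (ι × Fin N) A := Matrix.diagonal fun r => c' r.2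
  have hD : D * D' = 1 := by
    rw [Matrix.diagonal_mul_diagonal, ← Matrix.diagonal_one]
    congr 1
    funext r
    exact hc r.2
  have hD' : D' * D = 1 := by
    rw [Matrix.diagonal_mul_diagonal, ← Matrix.diagonal_one]
    congr 1
    funext r
    rw [mul_comm]
    exact hc r.2
  have hdet : D.det * D'.det = 1 := by rw [← Matrix.det_mul, hD, Matrix.det_one]
  have h1 : PC A0 B (fun i => Matrix.of fun p q => c p * c' q * X i p q) = D * PC A0 B X * D' := by
    ext ⟨a, p⟩ ⟨b, q⟩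
    rw [Matrix.mul_diagonal, Matrix.diagonal_mul]
    simp only [PC, penG, Matrix.comp_apply, Matrix.of_apply, Matrix.add_apply, Matrix.sum_apply,
      Matrix.smul_apply, Matrix.algebraMap_matrix_apply, mul_add, add_mul, Finset.mul_sum,
      Finset.sum_mul]
    congr 1
    · by_cases hpq : p = q
      · subst hpq
        rw [if_pos rfl]
        calc algebraMap K A (A0 a b) = (c p * c' p) * algebraMap K A (A0 a b) := by rw [hc, one_mul]
          _ = _ := by ring
      · rw [if_neg hpq]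
        ring
    · refine Finset.sum_congr rfl fun i _ => ?_
      rw [Algebra.smul_def, Algebra.smul_def]
      ring
  have h2 : (D * PC A0 B X * D').adjugate = D * (PC A0 B X).adjugate * D' := by
    have e1 : D.adjugate = D.det • D' := by
      calc D.adjugate = D' * D * D.adjugate := by rw [hD', Matrix.one_mul]
        _ = _ := by rw [Matrix.mul_assoc, Matrix.mul_adjugate, Matrix.mul_smul, Matrix.mul_one]
    have e2 : D'.adjugate = D'.det • D := by
      calc D'.adjugate = D * D' * D'.adjugate := by rw [hD, Matrix.one_mul]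
        _ = _ := by rw [Matrix.mul_assoc, Matrix.mul_adjugate, Matrix.mul_smul, Matrix.mul_one]
    rw [Matrix.adjugate_mul_distrib, Matrix.adjugate_mul_distrib, e1, e2, Matrix.mul_smul,
      Matrix.smul_mul, Matrix.mul_smul, smul_smul, mul_comm D'.det, hdet, one_smul, Matrix.mul_assoc]
  rw [num, Matrix.of_apply, num, Matrix.of_apply, h1, h2, Finset.mul_sum]
  refine Finset.sum_congr rfl fun a _ => ?_
  rw [Finset.mul_sum]
  refine Finset.sum_congr rfl fun b _ => ?_
  rw [Matrix.mul_diagonal, Matrix.diagonal_mul]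
  ring

end adj

theorem exists_pt [CharZero K] (F : K[X][X]) (hF : F ≠ 0) : ∃ τ μ : K, pt τ μ F ≠ 0 := by
  have h1 : ∃ k, F.coeff k ≠ 0 := by
    by_contra hcon
    push Not at hcon
    exact hF (Polynomial.ext fun k => by rw [hcon k, Polynomial.coeff_zero])
  obtain ⟨k, hk⟩ := h1
  obtain ⟨τ, hτ⟩ : ∃ τ : K, (F.coeff k).eval τ ≠ 0 := by
    by_contra hcon
    push Not at hcon
    exact hk (Polynomial.funext fun τ => by rw [hcon τ, Polynomial.eval_zero])
  have h2 : F.map (Polynomial.evalRingHom τ) ≠ 0 := by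
    intro h3
    apply hτ
    have h4 := congrArg (fun f : K[X] => f.coeff k) h3
    simpa [Polynomial.coeff_map] using h4
  obtain ⟨μ, hμ⟩ : ∃ μ : K, (F.map (Polynomial.evalRingHom τ)).eval μ ≠ 0 := by
    by_contra hcon
    push Not at hcon
    exact h2 (Polynomial.funext fun μ => by rw [hcon μ, Polynomial.eval_zero])
  exact ⟨τ, μ, by rw [pt_eq]; exact hμ⟩

theorem pow_sub (ζ : K) (hζ : IsPrimitiveRoot ζ N) (p q : Fin N) :
    ζ ^ ((p - q : Fin N) : ℕ) = ζ ^ (p : ℕ) * ζ⁻¹ ^ (q : ℕ) := by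
  have hN : 0 < N := NeZero.pos N
  have hz : ζ ≠ 0 := hζ.ne_zero hN.ne'
  have h1 : ζ ^ ((p - q : Fin N) : ℕ) * ζ ^ (q : ℕ) = ζ ^ (p : ℕ) := by
    rw [← pow_add]
    have h2 : (p : ℕ) = (((p - q : Fin N) : ℕ) + (q : ℕ)) % N := by
      rw [← Fin.val_add]
      congr 1
      abel
    have h3 : orderOf ζ ∣ N := orderOf_dvd_of_pow_eq_one hζ.pow_eq_one
    rw [h2, ← pow_mod_orderOf, ← pow_mod_orderOf ζ ((((p - q : Fin N) : ℕ) + (q : ℕ)) % N),
      Nat.mod_mod_of_dvd _ h3]
  rw [← h1, mul_assoc, ← mul_pow, mul_inv_cancel₀ hz, one_pow, mul_one]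

/-- One formula. -/
theorem twist_one [CharZero K] (ζ : K) (hζ : IsPrimitiveRoot ζ N)
    (β : Fin n → Matrix (Fin N) (Fin N) K) (φ : RExp K n) (h : φ.Defined β)
    (h0 : φ.eval β ≠ 0) : ∃ F : K[X][X], F ≠ 0 ∧
      ∀ τ μ : K, pt τ μ F ≠ 0 → (RExp.inv φ).Defined fun i => tw ζ τ μ (β i) := by
  obtain ⟨ι, i1, i2, A0, B, u, v, -, hA⟩ := linearise φ
  set X : Fin n → Matrix (Fin N) (Fin N) K[X][X] := fun i => gtw ζ (β i) with hX
  have hpt : ∀ τ μ : K, (fun i => (X i).map (pt τ μ)) = fun i => tw ζ τ μ (β i) := fun τ μ =>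
    funext fun i => pt_gtw ζ (β i) τ μ
  have h11 : (fun i => (X i).map (pt (1 : K) 1)) = β := by
    rw [hpt]
    exact funext fun i => tw_one ζ hζ (β i)
  obtain ⟨G, -, hG⟩ := exists_G (fun _ _ => True) 0 X trivial (fun _ _ _ _ _ _ => trivial)
    (fun _ _ _ _ _ => trivial) (fun _ _ _ _ _ => trivial) φ
  have hG0 : G ≠ 0 := by
    intro h1
    have h2 := (hG (pt 1 1)).2 (by rw [h11]; exact h)
    rw [h1, map_zero] at h2
    exact h2 rfl
  have hnum : num A0 B u v X ≠ 0 := by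
    intro h1
    have h2 := num_map (pt (1 : K) 1) A0 B u v X
    rw [h11, h1, num_rep A0 B u v β _ (hA _ _ h)] at h2
    have h3 : ((0 : Matrix (Fin N) (Fin N) K[X][X]).map (pt (1 : K) 1)) = 0 := by
      ext p q
      rw [Matrix.map_apply, Matrix.zero_apply, Matrix.zero_apply, map_zero]
    rw [h3] at h2
    rcases smul_eq_zero.1 h2.symm with h4 | h4
    · obtain ⟨Q, h5, h6, -⟩ := hA _ _ h
      have h7 : IsUnit (penG A0 B β) := ⟨⟨_, Q, h5, h6⟩, rfl⟩
      rw [← isUnit_comp, Matrix.isUnit_iff_isUnit_det] at h7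
      exact h7.ne_zero h4
    · exact h0 h4
  have hdet : (num A0 B u v X).det ≠ 0 := by
    refine sym_det ζ hζ _ ?_ ?_ hnum
    · intro k j p q
      have h1 := congrFun (congrFun (num_map (s1 ζ) A0 B u v X) p) q
      have h2 : (fun i => (X i).map (s1 ζ)) = fun i => (X i).submatrix (· + 1) (· + 1) := by
        funext i
        ext1 p q
        rw [Matrix.map_apply, Matrix.submatrix_apply]
        exact s1_gtw ζ hζ (β i) p q
      rw [h2, num_shift, Matrix.map_apply] at h1
      rw [← h1, s1_coeff]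
    · intro k j p q hc
      have h1 := congrFun (congrFun (num_map (s2 ζ) A0 B u v X) p) q
      have h2 : (fun i => (X i).map (s2 ζ)) = fun i => Matrix.of fun (p q : Fin N) =>
          algebraMap K K[X][X] (ζ ^ (p : ℕ)) * algebraMap K K[X][X] (ζ⁻¹ ^ (q : ℕ)) * X i p q := by
        funext i
        ext1 p q
        rw [Matrix.map_apply, Matrix.of_apply, ← map_mul, ← pow_sub ζ hζ]
        exact s2_gtw ζ (β i) p q
      rw [h2, num_clock A0 B u v X (fun p : Fin N => algebraMap K K[X][X] (ζ ^ (p : ℕ)))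
        (fun q : Fin N => algebraMap K K[X][X] (ζ⁻¹ ^ (q : ℕ))), Matrix.map_apply, ← map_mul,
        ← pow_sub ζ hζ] at h1
      · have h3 := congrArg (fun f : K[X][X] => (f.coeff k).coeff j) h1
        simp only [s2_coeff] at h3
        have h4 : algebraMap K K[X][X] (ζ ^ ((p - q : Fin N) : ℕ)) =
            C (C (ζ ^ ((p - q : Fin N) : ℕ))) := rfl
        rw [h4, Polynomial.coeff_C_mul, Polynomial.coeff_C_mul, Polynomial.coeff_C_mul] at h3
        exact mul_right_cancel₀ hc h3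
      · intro p
        rw [← map_mul, ← mul_pow, mul_inv_cancel₀ (hζ.ne_zero (NeZero.pos N).ne'), one_pow, map_one]
  refine ⟨G * (num A0 B u v X).det, mul_ne_zero hG0 hdet, fun τ μ h1 => ?_⟩
  rw [map_mul, mul_ne_zero_iff, hG, hpt] at h1
  refine ⟨h1.1, ?_⟩
  have h2 : pt τ μ (num A0 B u v X).det = ((num A0 B u v X).map (pt τ μ)).det :=
    (pt τ μ : K[X][X] →+* K).map_det _
  rw [h2, num_map, hpt, num_rep A0 B u v _ _ (hA _ _ h1.1), Matrix.det_smul] at h1
  rw [Matrix.isUnit_iff_isUnit_det, isUnit_iff_ne_zero]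
  exact (mul_ne_zero_iff.1 h1.2).2

/-- **Twist lemma.** -/
theorem twist [CharZero K] (ζ : K) (hζ : IsPrimitiveRoot ζ N)
    (β : Fin n → Matrix (Fin N) (Fin N) K) (Φ : List (RExp K n))
    (h : ∀ φ ∈ Φ, φ.Defined β ∧ φ.eval β ≠ 0) :
    ∃ τ μ : K, ∀ φ ∈ Φ, (RExp.inv φ).Defined fun i => tw ζ τ μ (β i) := by
  have key : ∃ F : K[X][X], F ≠ 0 ∧ ∀ φ ∈ Φ, ∀ τ μ : K, pt τ μ F ≠ 0 →
      (RExp.inv φ).Defined fun i => tw ζ τ μ (β i) := by
    induction Φ with
    | nil => exact ⟨1, one_ne_zero, fun φ hφ => by simp at hφ⟩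
    | cons φ Φ ih =>
      obtain ⟨F, h1, h2⟩ := ih fun ψ hψ => h ψ (List.mem_cons_of_mem _ hψ)
      obtain ⟨h3, h4⟩ := h φ List.mem_cons_self
      obtain ⟨F', h5, h6⟩ := twist_one ζ hζ β φ h3 h4
      refine ⟨F * F', mul_ne_zero h1 h5, fun ψ hψ τ μ h7 => ?_⟩
      rw [map_mul, mul_ne_zero_iff] at h7
      rcases List.mem_cons.1 hψ with rfl | h8
      · exact h6 τ μ h7.2
      · exact h2 ψ h8 τ μ h7.1
  obtain ⟨F, h1, h2⟩ := key
  obtain ⟨τ, μ, h3⟩ := exists_pt F h1
  exact ⟨τ, μ, fun φ hφ => h2 φ hφ τ μ h3⟩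

end Pool.Agent.NCR
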