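import Mathlib
import Pool.Agent.NCR.Twist2

/-!
NCR: the tower of explicit tuples.
-/

set_option autoImplicit false

namespace Pool.Agent.NCR

open Pool.Agent.NCP Polynomial

universe u

/-- Size of the Jordan blocks over dimension `k`. -/
def tk (s k : ℕ) : ℕ := 2 * s * k + 1

/-- Length of the nilpotent matrices over dimension `k`. -/
def mk (n s k : ℕ) : ℕ := n * (k * k) * tk s k ^ 4

/-- The dimensions. -/
def kk (n s : ℕ) : ℕ → ℕ
  | 0 => 1
  | h + 1 => kk n s h * ((mk n s (kk n s h) + 1) * tk s (kk n s h))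

theorem kk_pos (n s h : ℕ) : 0 < kk n s h := by
  induction h with
  | zero => exact Nat.one_pos
  | succ h ih =>
    rw [kk]
    exact Nat.mul_pos ih (Nat.mul_pos (Nat.succ_pos _) (Nat.succ_pos _))

instance (n s h : ℕ) : NeZero (kk n s h) := ⟨(kk_pos n s h).ne'⟩

variable {K : Type u} [Field K] {n k : ℕ}

/-- The numbering of the indices. -/
def ie (k M t : ℕ) : Fin k × (Fin (M + 1) × Fin t) ≃ Fin (k * ((M + 1) * t)) :=
  (Equiv.prodCongr (Equiv.refl _) finProdFinEquiv).trans finProdFinEquiv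

/-- The point `α ⊗ 1 + ∑ e_ab ⊗ T_(i,a,b)` as one matrix. -/
noncomputable def sh (K : Type u) [Field K] {A : Type u} [CommRing A] [Algebra K A] (M t : ℕ)
    (α : Fin n → Matrix (Fin k) (Fin k) A) (i : Fin n) :
    Matrix (Fin (k * ((M + 1) * t))) (Fin (k * ((M + 1) * t))) A :=
  Matrix.of fun p q =>
    (if ((ie k M t).symm p).2 = ((ie k M t).symm q).2 then
      α i ((ie k M t).symm p).1 ((ie k M t).symm q).1 else 0) +
    algebraMap K A (tup K M t (enc i ((ie k M t).symm p).1 ((ie k M t).symm q).1)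
      ((ie k M t).symm p).2 ((ie k M t).symm q).2)

/-- The explicit tuples: `θ (2 h)` and `θ (2 h + 1)` are the parameters of the step `h`. -/
noncomputable def Xt (K : Type u) [Field K] (ζ : ℕ → K) (n s : ℕ) {A : Type u} [CommRing A]
    [Algebra K A] (θ : ℕ → A) : (h : ℕ) → Fin n → Matrix (Fin (kk n s h)) (Fin (kk n s h)) A
  | 0 => 0
  | h + 1 => fun i => tw (N := kk n s (h + 1)) (ζ (h + 1)) (θ (2 * h)) (θ (2 * h + 1))
      (sh K (mk n s (kk n s h)) (tk s (kk n s h)) (Xt K ζ n s θ h) i)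

/-- The equivalence of algebras. -/
noncomputable def fe (k M t : ℕ) : Matrix (Fin k) (Fin k) (Matrix (Fin (M + 1) × Fin t)
    (Fin (M + 1) × Fin t) K) ≃ₐ[K] Matrix (Fin (k * ((M + 1) * t))) (Fin (k * ((M + 1) * t))) K :=
  (Matrix.compAlgEquiv (Fin k) (Fin (M + 1) × Fin t) K K).trans
    (Matrix.reindexAlgEquiv K K (ie k M t))

theorem fe_sub (M t : ℕ) (α : Fin n → Matrix (Fin k) (Fin k) K) (i : Fin n) :
    fe k M t (sub α (tup K M t) i) = sh K M t α i := by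
  ext p q
  have h1 : fe k M t (sub α (tup K M t) i) p q =
      (sub α (tup K M t) i) ((ie k M t).symm p).1 ((ie k M t).symm q).1
        ((ie k M t).symm p).2 ((ie k M t).symm q).2 := rfl
  rw [h1, sub, Matrix.of_apply, Matrix.add_apply, Matrix.algebraMap_matrix_apply, sh,
    Matrix.of_apply]
  rfl

theorem sh_map {A A' : Type u} [CommRing A] [Algebra K A] [CommRing A'] [Algebra K A']
    (e : A →ₐ[K] A') (M t : ℕ) (α : Fin n → Matrix (Fin k) (Fin k) A) (i : Fin n) :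
    (sh K M t α i).map e = sh K M t (fun i => (α i).map e) i := by
  ext p q
  rw [Matrix.map_apply, sh, Matrix.of_apply, sh, Matrix.of_apply, map_add, AlgHom.commutes]
  congr 1
  split_ifs
  · rfl
  · exact map_zero e

theorem Xt_map (ζ : ℕ → K) (s : ℕ) {A A' : Type u} [CommRing A] [Algebra K A] [CommRing A']
    [Algebra K A'] (e : A →ₐ[K] A') (θ : ℕ → A) (h : ℕ) (i : Fin n) :
    (Xt K ζ n s θ h i).map e = Xt K ζ n s (fun l => e (θ l)) h i := by
  induction h generalizing i with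
  | zero =>
    ext p q
    exact map_zero e
  | succ h ih =>
    have h1 : (fun i => (Xt K ζ n s θ h i).map e) = Xt K ζ n s (fun l => e (θ l)) h :=
      funext fun i => ih i
    have h2 := tw_map (N := kk n s (h + 1)) e (ζ (h + 1)) (θ (2 * h)) (θ (2 * h + 1))
      (sh K (mk n s (kk n s h)) (tk s (kk n s h)) (Xt K ζ n s θ h) i)
    have h3 := sh_map e (mk n s (kk n s h)) (tk s (kk n s h)) (Xt K ζ n s θ h) i
    rw [h1] at h3
    refine h2.trans ?_
    show tw (N := kk n s (h + 1)) _ _ _ _ = tw (N := kk n s (h + 1)) _ _ _ _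
    congr 1

theorem Xt_congr (ζ : ℕ → K) (s : ℕ) {A : Type u} [CommRing A] [Algebra K A] (θ θ' : ℕ → A)
    (h : ℕ) (hθ : ∀ l < 2 * h, θ l = θ' l) : Xt K ζ n s θ h = Xt K ζ n s θ' h := by
  induction h with
  | zero => rfl
  | succ h ih =>
    have h1 := ih fun l hl => hθ l (by omega)
    funext i
    rw [Xt, Xt, h1, hθ (2 * h) (by omega), hθ (2 * h + 1) (by omega)]

theorem shift_sh_defined (α : Fin n → Matrix (Fin k) (Fin k) K) (φ : RExp K n) (h : φ.Defined α)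
    (M t : ℕ) : φ.Defined (sh K M t α) := by
  have h1 := (defined_equiv (fe (K := K) k M t) _ φ).2 (shift_defined α φ h M t)
  have h2 : (fun i => fe (K := K) k M t (sub α (tup K M t) i)) = sh K M t α :=
    funext fun i => fe_sub M t α i
  rwa [h2] at h1

theorem shift_sh_zero [CharZero K] (hk : 0 < k) (α : Fin n → Matrix (Fin k) (Fin k) K)
    (φ : RExp K n) (h : φ.Defined α) (M t : ℕ) (ht : 2 * φ.size * k ≤ t)
    (hM : n * (k * k) * t ^ 4 ≤ M) (h0 : φ.eval (sh K M t α) = 0) (N : ℕ)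
    (Y : Fin n → Matrix (Fin N) (Fin N) K) (hY : φ.Defined Y) : φ.eval Y = 0 := by
  refine shift_zero hk α φ h M t ht hM ?_ N Y hY
  have h1 := (defined_hom (fe (K := K) k M t).toAlgHom _ φ (shift_defined α φ h M t)).2
  have h2 : (fun i => (fe (K := K) k M t).toAlgHom (sub α (tup K M t) i)) = sh K M t α :=
    funext fun i => fe_sub M t α i
  rw [h2, h0] at h1
  exact (fe (K := K) k M t).injective (h1.symm.trans (map_zero _).symm)

/-- One step. -/
theorem step [CharZero K] (ζ : ℕ → K) (s h : ℕ) (hζ : IsPrimitiveRoot (ζ (h + 1)) (kk n s (h + 1)))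
    (θ : ℕ → K) (Φ : List (RExp K n)) (hΦ : ∀ φ ∈ Φ, φ.size ≤ s ∧ φ.Defined (Xt K ζ n s θ h) ∧
      ∃ (N : ℕ) (Y : Fin n → Matrix (Fin N) (Fin N) K), φ.Defined Y ∧ φ.eval Y ≠ 0) :
    ∃ θ' : ℕ → K, ∀ φ ∈ Φ, (RExp.inv φ).Defined (Xt K ζ n s θ' (h + 1)) := by
  have h1 : ∀ φ ∈ Φ, φ.Defined (sh K (mk n s (kk n s h)) (tk s (kk n s h)) (Xt K ζ n s θ h)) ∧
      φ.eval (sh K (mk n s (kk n s h)) (tk s (kk n s h)) (Xt K ζ n s θ h)) ≠ 0 := by
    intro φ hφ
    obtain ⟨h2, h3, N, Y, h4, h5⟩ := hΦ φ hφ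
    refine ⟨shift_sh_defined _ φ h3 _ _, fun h6 => ?_⟩
    refine h5 (shift_sh_zero (kk_pos n s h) _ φ h3 _ _ ?_ ?_ h6 N Y h4)
    · rw [tk]
      have : 2 * φ.size * kk n s h ≤ 2 * s * kk n s h :=
        Nat.mul_le_mul_right _ (Nat.mul_le_mul_left 2 h2)
      omega
    · exact le_rfl
  obtain ⟨τ, μ, h2⟩ := twist (N := kk n s (h + 1)) (ζ (h + 1)) hζ
    (sh K (mk n s (kk n s h)) (tk s (kk n s h)) (Xt K ζ n s θ h)) Φ h1
  refine ⟨fun l => if l = 2 * h then τ else if l = 2 * h + 1 then μ else θ l, fun φ hφ => ?_⟩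
  have h3 := h2 φ hφ
  have h4 : Xt K ζ n s (fun l => if l = 2 * h then τ else if l = 2 * h + 1 then μ else θ l) h =
      Xt K ζ n s θ h := by
    refine Xt_congr ζ s _ _ h fun l hl => ?_
    rw [if_neg (by omega), if_neg (by omega)]
  have h5 : Xt K ζ n s (fun l => if l = 2 * h then τ else if l = 2 * h + 1 then μ else θ l) (h + 1) =
      fun i => tw (N := kk n s (h + 1)) (ζ (h + 1)) τ μ
        (sh K (mk n s (kk n s h)) (tk s (kk n s h)) (Xt K ζ n s θ h) i) := by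
    funext i
    rw [Xt, h4, if_pos rfl, if_neg (by omega), if_pos rfl]
  rw [h5]
  exact h3

/-- **The tower lemma.** -/
theorem tower [CharZero K] (ζ : ℕ → K) (s h : ℕ)
    (hζ : ∀ j, 1 ≤ j → j ≤ h → IsPrimitiveRoot (ζ j) (kk n s j)) (Φ : List (RExp K n))
    (hΦ : ∀ φ ∈ Φ, φ.size ≤ s ∧ Lv h φ ∧
      ∃ (N : ℕ) (Y : Fin n → Matrix (Fin N) (Fin N) K), 0 < N ∧ φ.Defined Y) :
    ∃ θ : ℕ → K, ∀ φ ∈ Φ, φ.Defined (Xt K ζ n s θ h) := by
  induction h generalizing Φ with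
  | zero =>
    refine ⟨0, fun φ hφ => ?_⟩
    obtain ⟨-, h1, -⟩ := hΦ φ hφ
    rw [Lv] at h1
    have h2 := (defined_hom (Algebra.ofId K (Matrix (Fin 1) (Fin 1) K)) _ φ h1).1
    have h3 : (fun i => Algebra.ofId K (Matrix (Fin 1) (Fin 1) K) ((0 : Fin n → K) i)) =
        Xt K ζ n s 0 0 := by
      funext i
      rw [Pi.zero_apply, map_zero]
      rfl
    rwa [h3] at h2
  | succ h ih =>
    have h1 : ∀ a ∈ Φ.flatMap args, a.size ≤ s ∧ Lv h a ∧
        ∃ (N : ℕ) (Y : Fin n → Matrix (Fin N) (Fin N) K), 0 < N ∧ a.Defined Y ∧ a.eval Y ≠ 0 := by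
      intro a ha
      obtain ⟨φ, hφ, haφ⟩ := List.mem_flatMap.1 ha
      obtain ⟨h2, h3, N, Y, hN, hY⟩ := hΦ φ hφ
      refine ⟨(size_args φ a haφ).trans h2, lv_args h φ h3 a haφ, N, Y, hN, ?_⟩
      obtain ⟨h4, h5⟩ := (defined_iff_args Y φ).1 hY a haφ
      refine ⟨h4, fun h6 => ?_⟩
      rw [h6] at h5
      have : Nonempty (Fin N) := ⟨⟨0, hN⟩⟩
      exact not_isUnit_zero h5
    obtain ⟨θ, h2⟩ := ih (fun j hj hj' => hζ j hj (by omega)) (Φ.flatMap args) fun a ha => by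
      obtain ⟨h3, h4, N, Y, hN, hY, -⟩ := h1 a ha
      exact ⟨h3, h4, N, Y, hN, hY⟩
    obtain ⟨θ', h3⟩ := step ζ s h (hζ (h + 1) (by omega) le_rfl) θ (Φ.flatMap args) fun a ha => by
      obtain ⟨h4, h5, N, Y, hN, hY, hY'⟩ := h1 a ha
      exact ⟨h4, h2 a ha, N, Y, hY, hY'⟩
    refine ⟨θ', fun φ hφ => ?_⟩
    rw [defined_iff_args]
    intro a ha
    exact h3 a (List.mem_flatMap.2 ⟨φ, hφ, ha⟩)

theorem tower_inv [CharZero K] (ζ : ℕ → K) (s h : ℕ)
    (hζ : ∀ j, 1 ≤ j → j ≤ h + 1 → IsPrimitiveRoot (ζ j) (kk n s j)) (φ : RExp K n)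
    (hs : φ.size ≤ s) (hφ : Lv h φ)
    (hY : ∃ (N : ℕ) (Y : Fin n → Matrix (Fin N) (Fin N) K), φ.Defined Y ∧ φ.eval Y ≠ 0) :
    ∃ θ : ℕ → K, (RExp.inv φ).Defined (Xt K ζ n s θ (h + 1)) := by
  obtain ⟨N, Y, h1, h2⟩ := hY
  have hN : 0 < N := by
    rcases Nat.eq_zero_or_pos N with h3 | h3
    · subst h3
      exact absurd (Subsingleton.elim _ _) h2
    · exact h3
  obtain ⟨θ, h3⟩ := tower ζ s h (fun j hj hj' => hζ j hj (by omega)) [φ] fun ψ hψ => by
    rw [List.mem_singleton] at hψ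
    subst hψ
    exact ⟨hs, hφ, N, Y, hN, h1⟩
  obtain ⟨θ', h4⟩ := step ζ s h (hζ (h + 1) (by omega) le_rfl) θ [φ] fun ψ hψ => by
    have h5 := h3 ψ hψ
    rw [List.mem_singleton] at hψ
    subst hψ
    exact ⟨hs, h5, N, Y, h1, h2⟩
  exact ⟨θ', h4 φ (List.mem_singleton.2 rfl)⟩

end Pool.Agent.NCR
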