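import Mathlib
import Pool.Agent.NCR.Tower

/-!
NCR: the parameters can be chosen to be small natural numbers; the dimensions are polynomial.
-/

set_option autoImplicit false

namespace Pool.Agent.NCR

open Pool.Agent.NCP Polynomial

universe u

variable {K : Type u} [Field K] {n k : ℕ}

theorem kk_mono (n s h : ℕ) : kk n s h ≤ kk n s (h + 1) := by
  rw [kk]
  exact Nat.le_mul_of_pos_right _ (Nat.mul_pos (Nat.succ_pos _) (Nat.succ_pos _))

theorem natDegree_algebraMap (c : K) : (algebraMap K K[X] c).natDegree = 0 := by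
  rw [Polynomial.algebraMap_eq, Polynomial.natDegree_C]

theorem natDegree_tw {N : ℕ} [NeZero N] (ζ : K) (τ μ : K[X]) (a b d : ℕ) (hτ : τ.natDegree ≤ a)
    (hμ : μ.natDegree ≤ b) (B : Matrix (Fin N) (Fin N) K[X]) (hB : ∀ p q, (B p q).natDegree ≤ d)
    (p q : Fin N) : (tw ζ τ μ B p q).natDegree ≤ N * (a + b) + d := by
  rw [tw, Matrix.of_apply]
  have h1 : (μ ^ ((p - q : Fin N) : ℕ)).natDegree ≤ N * b := by
    refine (Polynomial.natDegree_pow_le).trans ?_
    exact Nat.mul_le_mul (p - q).2.le hμ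
  have h2 : (∑ a : Fin N, ∑ j : Fin N, τ ^ (j : ℕ) *
      algebraMap K K[X] (ζ⁻¹ ^ ((j : ℕ) * (a : ℕ))) * B (p + a) (q + a)).natDegree ≤ N * a + d := by
    refine Polynomial.natDegree_sum_le_of_forall_le _ _ fun x _ => ?_
    refine Polynomial.natDegree_sum_le_of_forall_le _ _ fun j _ => ?_
    refine (Polynomial.natDegree_mul_le).trans (Nat.add_le_add ?_ (hB _ _))
    refine (Polynomial.natDegree_mul_le).trans ?_
    rw [natDegree_algebraMap, add_zero]
    refine (Polynomial.natDegree_pow_le).trans ?_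
    exact Nat.mul_le_mul j.2.le hτ
  refine (Polynomial.natDegree_mul_le).trans ?_
  have h3 := Polynomial.natDegree_mul_le (p := algebraMap K K[X] (N : K)⁻¹)
    (q := ∑ a : Fin N, ∑ j : Fin N, τ ^ (j : ℕ) *
      algebraMap K K[X] (ζ⁻¹ ^ ((j : ℕ) * (a : ℕ))) * B (p + a) (q + a))
  rw [natDegree_algebraMap, zero_add] at h3
  have h4 := h3.trans h2
  calc _ ≤ N * b + (N * a + d) := Nat.add_le_add h1 h4
    _ = N * (a + b) + d := by ring

theorem natDegree_sh (M t d : ℕ) (α : Fin n → Matrix (Fin k) (Fin k) K[X])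
    (hα : ∀ i p q, (α i p q).natDegree ≤ d) (i : Fin n) (p q : Fin (k * ((M + 1) * t))) :
    (sh K M t α i p q).natDegree ≤ d := by
  rw [sh, Matrix.of_apply]
  refine (Polynomial.natDegree_add_le _ _).trans (max_le ?_ ?_)
  · split_ifs
    · exact hα _ _ _
    · simp
  · rw [natDegree_algebraMap]
    exact Nat.zero_le _

theorem natDegree_Xt (ζ : ℕ → K) (s : ℕ) (θ : ℕ → K[X]) (δ : ℕ → ℕ)
    (hθ : ∀ l, (θ l).natDegree ≤ δ l) (h : ℕ) (i : Fin n) (p q : Fin (kk n s h)) :
    (Xt K ζ n s θ h i p q).natDegree ≤ kk n s h * ∑ l ∈ Finset.range (2 * h), δ l := by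
  induction h generalizing i with
  | zero =>
    show (0 : K[X]).natDegree ≤ _
    simp
  | succ h ih =>
    have h1 := natDegree_tw (N := kk n s (h + 1)) (ζ (h + 1)) (θ (2 * h)) (θ (2 * h + 1)) _ _ _
      (hθ _) (hθ _) (sh K (mk n s (kk n s h)) (tk s (kk n s h)) (Xt K ζ n s θ h) i)
      (natDegree_sh _ _ _ _ (fun i p q => ih i p q) i) p q
    refine h1.trans ?_
    rw [show 2 * (h + 1) = 2 * h + 1 + 1 by ring, Finset.sum_range_succ, Finset.sum_range_succ]
    have h2 : kk n s h * ∑ l ∈ Finset.range (2 * h), δ l ≤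
        kk n s (h + 1) * ∑ l ∈ Finset.range (2 * h), δ l := Nat.mul_le_mul_right _ (kk_mono n s h)
    calc _ ≤ kk n s (h + 1) * (δ (2 * h) + δ (2 * h + 1)) +
          kk n s (h + 1) * ∑ l ∈ Finset.range (2 * h), δ l := Nat.add_le_add_left h2 _
      _ = _ := by ring

/-- One coordinate. -/
theorem replace_coord [CharZero K] (ζ : ℕ → K) (s h : ℕ) (θ : ℕ → K) (m : ℕ) (ψ : RExp K n)
    (hψ : ψ.Defined (Xt K ζ n s θ h)) (B : ℕ) (hB : 2 * ψ.size ^ 2 * (kk n s h * kk n s h) ≤ B) :
    ∃ c : ℕ, c ≤ B ∧ ψ.Defined (Xt K ζ n s (Function.update θ m (c : K)) h) := by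
  set P : ℕ → K[X] := fun l => if l = m then X else C (θ l) with hP
  have hev : ∀ (x : K) (i : Fin n), (Xt K ζ n s P h i).map (Polynomial.aeval x) =
      Xt K ζ n s (Function.update θ m x) h i := by
    intro x i
    rw [Xt_map]
    congr 1
    funext l
    rw [hP]
    by_cases hl : l = m
    · subst hl
      simp
    · simp [hl]
  have hdeg : ∀ i p q, (Xt K ζ n s P h i p q).natDegree ≤ kk n s h := by
    intro i p q
    refine (natDegree_Xt ζ s P (fun l => if l = m then 1 else 0) ?_ h i p q).trans ?_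
    · intro l
      rw [hP]
      by_cases hl : l = m
      · simp [hl]
      · simp [hl]
    · have h1 : ∑ l ∈ Finset.range (2 * h), (if l = m then 1 else 0) ≤ 1 := by
        rw [Finset.sum_ite_eq']
        split_ifs <;> simp
      calc _ ≤ kk n s h * 1 := Nat.mul_le_mul_left _ h1
        _ = _ := mul_one _
  have hx : ψ.Defined fun i => (Xt K ζ n s P h i).map (Polynomial.aeval (θ m)) := by
    have h2 : (fun i => (Xt K ζ n s P h i).map (Polynomial.aeval (θ m))) = Xt K ζ n s θ h := by
      funext i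
      rw [hev, Function.update_eq_self]
    rwa [h2]
  obtain ⟨c, h3, h4⟩ := small_param (Xt K ζ n s P h) (kk n s h) hdeg ψ (θ m) hx B (by
    rwa [Fintype.card_fin])
  refine ⟨c, h3, ?_⟩
  have h5 : (fun i => (Xt K ζ n s P h i).map (Polynomial.aeval (c : K))) =
      Xt K ζ n s (Function.update θ m (c : K)) h := funext fun i => hev _ i
  rwa [h5] at h4

/-- All parameters can be chosen to be small natural numbers. -/
theorem grid [CharZero K] (ζ : ℕ → K) (s h : ℕ) (θ : ℕ → K) (ψ : RExp K n)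
    (hψ : ψ.Defined (Xt K ζ n s θ h)) (B : ℕ) (hB : 2 * ψ.size ^ 2 * (kk n s h * kk n s h) ≤ B) :
    ∃ c : ℕ → ℕ, (∀ l, c l ≤ B) ∧ ψ.Defined (Xt K ζ n s (fun l => (c l : K)) h) := by
  have key : ∀ m : ℕ, ∃ c : ℕ → ℕ, (∀ l, c l ≤ B) ∧
      ψ.Defined (Xt K ζ n s (fun l => if l < m then (c l : K) else θ l) h) := by
    intro m
    induction m with
    | zero => exact ⟨fun _ => 0, fun _ => Nat.zero_le _, by simpa using hψ⟩
    | succ m ih =>
      obtain ⟨c, h1, h2⟩ := ih
      obtain ⟨x, h3, h4⟩ := replace_coord ζ s h _ m ψ h2 B hB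
      refine ⟨Function.update c m x, fun l => ?_, ?_⟩
      · by_cases hl : l = m
        · subst hl
          rw [Function.update_self]
          exact h3
        · rw [Function.update_of_ne hl]
          exact h1 l
      · have h5 : (fun l => if l < m + 1 then ((Function.update c m x l : ℕ) : K) else θ l) =
            Function.update (fun l => if l < m then (c l : K) else θ l) m (x : K) := by
          funext l
          by_cases hl : l = m
          · subst hl
            simp
          · rw [Function.update_of_ne hl, Function.update_of_ne hl]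
            by_cases hl2 : l < m
            · rw [if_pos hl2, if_pos (by omega)]
            · rw [if_neg hl2, if_neg (by omega)]
        rw [h5]
        exact h4
  obtain ⟨c, h1, h2⟩ := key (2 * h)
  refine ⟨c, h1, ?_⟩
  have h3 := Xt_congr (n := n) ζ s (fun l => (c l : K)) (fun l => if l < 2 * h then (c l : K) else θ l) h
    fun l hl => by rw [if_pos hl]
  rw [h3]
  exact h2

/-- The dimensions are bounded by a polynomial of `n` and `s`. -/
theorem kk_poly (h : ℕ) : ∃ c : ℕ, ∀ n s : ℕ, kk n s h ≤ (n + s + 2) ^ c := by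
  induction h with
  | zero => exact ⟨0, fun n s => by simp [kk]⟩
  | succ h ih =>
    obtain ⟨c, hc⟩ := ih
    refine ⟨c + (1 + (c + c) + (2 + 1 + c + 1) * 4 + 1 + (2 + 1 + c + 1)), fun n s => ?_⟩
    have hk := hc n s
    set k := kk n s h with hkdef
    set T := n + s + 2 with hT
    have hT1 : 1 ≤ T := by omega
    have hk1 : k ≤ T ^ c := hk
    have ht : tk s k ≤ T ^ (2 + 1 + c + 1) := by
      rw [tk]
      have h1 : 2 * s * k + 1 ≤ T ^ 2 * T * T ^ c * T := by
        have e1 : 2 * s * k ≤ T ^ 2 * T * T ^ c := by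
          have e2 : 2 ≤ T ^ 2 := by nlinarith
          exact Nat.mul_le_mul (Nat.mul_le_mul e2 (by omega)) hk1
        have e3 : 1 ≤ T ^ 2 * T * T ^ c := Nat.one_le_iff_ne_zero.2 (by positivity)
        have e4 : 2 ≤ T := by omega
        nlinarith
      calc _ ≤ _ := h1
        _ = _ := by ring
    have hm : mk n s k + 1 ≤ T ^ (1 + (c + c) + (2 + 1 + c + 1) * 4 + 1) := by
      rw [mk]
      have e1 : n * (k * k) * tk s k ^ 4 ≤ T ^ (1 + (c + c) + (2 + 1 + c + 1) * 4) := by
        rw [pow_add, pow_add, pow_add, pow_mul, pow_one]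
        exact Nat.mul_le_mul (Nat.mul_le_mul (by omega) (Nat.mul_le_mul hk1 hk1))
          (Nat.pow_le_pow_left ht 4)
      have e3 : 1 ≤ T ^ (1 + (c + c) + (2 + 1 + c + 1) * 4) := Nat.one_le_iff_ne_zero.2 (by positivity)
      have e4 : 2 ≤ T := by omega
      rw [pow_succ T (1 + (c + c) + (2 + 1 + c + 1) * 4)]
      nlinarith
    rw [kk, pow_add, pow_add T (1 + (c + c) + (2 + 1 + c + 1) * 4 + 1)]
    exact Nat.mul_le_mul hk1 (Nat.mul_le_mul hm ht)

end Pool.Agent.NCR
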