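import Mathlib
import Pool.Agent.NCR.Grid

/-!
NCR: extension of the field of constants; the final form of the tower theorem.
-/

set_option autoImplicit false

namespace Pool.Agent.NCR

open Pool.Agent.NCP

universe u

variable {K L : Type u} [Field K] [Field L] [Algebra K L] {n : ℕ}

/-- A formula over `K` as a formula over `L`. -/
def mp (L : Type u) [Field L] [Algebra K L] : RExp K n → RExp L n
  | .const c => .const (algebraMap K L c)
  | .var i => .var i
  | .add a b => .add (mp L a) (mp L b)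
  | .mul a b => .mul (mp L a) (mp L b)
  | .inv a => .inv (mp L a)

theorem size_mp (φ : RExp K n) : (mp L φ).size = φ.size := by
  induction φ with
  | const c => rfl
  | var i => rfl
  | add a b iha ihb => rw [mp, RExp.size, RExp.size, iha, ihb]
  | mul a b iha ihb => rw [mp, RExp.size, RExp.size, iha, ihb]
  | inv a iha => rw [mp, RExp.size, RExp.size, iha]

theorem mp_defined {R : Type*} [Ring R] [Algebra K R] [Algebra L R] [IsScalarTower K L R]
    (Y : Fin n → R) (φ : RExp K n) :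
    (mp L φ).eval Y = φ.eval Y ∧ ((mp L φ).Defined Y ↔ φ.Defined Y) := by
  induction φ with
  | const c => exact ⟨(IsScalarTower.algebraMap_apply K L R c).symm, Iff.rfl⟩
  | var i => exact ⟨rfl, Iff.rfl⟩
  | add a b iha ihb =>
    refine ⟨?_, ?_⟩
    · rw [mp, RExp.eval, RExp.eval, iha.1, ihb.1]
    · rw [mp, RExp.Defined, RExp.Defined, iha.2, ihb.2]
  | mul a b iha ihb =>
    refine ⟨?_, ?_⟩
    · rw [mp, RExp.eval, RExp.eval, iha.1, ihb.1]
    · rw [mp, RExp.Defined, RExp.Defined, iha.2, ihb.2]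
  | inv a iha =>
    refine ⟨?_, ?_⟩
    · rw [mp, RExp.eval, RExp.eval, iha.1]
    · rw [mp, RExp.Defined, RExp.Defined, iha.1, iha.2]

theorem mp_hom {R S : Type*} [Ring R] [Algebra K R] [Ring S] [Algebra K S] [Algebra L S]
    [IsScalarTower K L S] (f : R →ₐ[K] S) (Y : Fin n → R) (φ : RExp K n) (h : φ.Defined Y) :
    (mp L φ).Defined (fun i => f (Y i)) ∧ (mp L φ).eval (fun i => f (Y i)) = f (φ.eval Y) := by
  obtain ⟨h1, h2⟩ := defined_hom f Y φ h
  obtain ⟨h3, h4⟩ := mp_defined (L := L) (fun i => f (Y i)) φ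
  exact ⟨h4.2 h1, h3.trans h2⟩

theorem mp_lv (h : ℕ) (φ : RExp K n) (hφ : Lv h φ) : Lv h (mp L φ) := by
  induction h generalizing φ with
  | zero =>
    rw [Lv] at hφ ⊢
    have h1 := (mp_hom (L := L) (Algebra.ofId K L) _ φ hφ).1
    have h2 : (fun i => Algebra.ofId K L ((0 : Fin n → K) i)) = (0 : Fin n → L) := by
      funext i
      rw [Pi.zero_apply, map_zero]
      rfl
    rwa [h2] at h1
  | succ h ih =>
    induction φ with
    | const c => rw [mp, Lv]; trivial
    | var i => rw [mp, Lv]; trivial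
    | add a b iha ihb =>
      rw [Lv] at hφ
      rw [mp, Lv]
      exact ⟨iha hφ.1, ihb hφ.2⟩
    | mul a b iha ihb =>
      rw [Lv] at hφ
      rw [mp, Lv]
      exact ⟨iha hφ.1, ihb hφ.2⟩
    | inv a iha =>
      rw [Lv] at hφ
      rw [mp, Lv]
      exact ih a hφ

/-- **Formulas of level at most `h`.** -/
theorem level_hit [CharZero K] (ζ : ℕ → L) (s h : ℕ)
    (hζ : ∀ j, 1 ≤ j → j ≤ h + 1 → IsPrimitiveRoot (ζ j) (kk n s j)) (φ : RExp K n)
    (hs : φ.size ≤ s) (hφ : Lv h φ) (N : ℕ) (Y : Fin n → Matrix (Fin N) (Fin N) K)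
    (hY : φ.Defined Y) (hY0 : φ.eval Y ≠ 0) (B : ℕ)
    (hB : 2 * (s + 1) ^ 2 * (kk n s (h + 1) * kk n s (h + 1)) ≤ B) :
    ∃ c : ℕ → ℕ, (∀ l, c l ≤ B) ∧
      φ.Defined (Xt L ζ n s (fun l => (c l : L)) (h + 1)) ∧
      IsUnit (φ.eval (Xt L ζ n s (fun l => (c l : L)) (h + 1))) := by
  have : CharZero L := charZero_of_injective_algebraMap (algebraMap K L).injective
  let f : Matrix (Fin N) (Fin N) K →ₐ[K] Matrix (Fin N) (Fin N) L :=
    (Algebra.ofId K L).mapMatrix
  have hf : Function.Injective f := Matrix.map_injective (algebraMap K L).injective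
  obtain ⟨h1, h2⟩ := mp_hom (L := L) f Y φ hY
  obtain ⟨θ, h3⟩ := tower_inv ζ s h hζ (mp L φ) (by rw [size_mp]; exact hs) (mp_lv h φ hφ)
    ⟨N, _, h1, by
      rw [h2]
      intro h4
      exact hY0 (hf (h4.trans (map_zero f).symm))⟩
  obtain ⟨c, h5, h6⟩ := grid ζ s (h + 1) θ _ h3 B (by
    refine le_trans (Nat.mul_le_mul_right _ (Nat.mul_le_mul_left 2 (Nat.pow_le_pow_left ?_ 2))) hB
    rw [RExp.size, size_mp]
    omega)
  refine ⟨c, h5, ?_⟩
  obtain ⟨h7, h8⟩ := h6
  obtain ⟨h9, h10⟩ := mp_defined (L := L) (Xt L ζ n s (fun l => (c l : L)) (h + 1)) φ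
  rw [h9] at h8
  exact ⟨h10.1 h7, h8⟩

end Pool.Agent.NCR
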