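import Mathlib
import Pool.Agent.NCR.Ext

/-!
NCR: inversion height; the finite set of explicit points.
-/

set_option autoImplicit false

namespace Pool.Agent.NCR

open Pool.Agent.NCP

universe u

variable {K : Type u} [Field K] {n : ℕ}

/-- The inversion height: the maximal number of nested inversions. -/
def ht : RExp K n → ℕ
  | .const _ => 0
  | .var _ => 0
  | .add a b => max (ht a) (ht b)
  | .mul a b => max (ht a) (ht b)
  | .inv a => ht a + 1

theorem lv_of_ht (h : ℕ) (φ : RExp K n) (hφ : ht φ ≤ h) : Lv h φ := by
  induction h generalizing φ with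
  | zero =>
    rw [Lv]
    induction φ with
    | const c => trivial
    | var i => trivial
    | add a b iha ihb =>
      rw [ht] at hφ
      exact ⟨iha (le_trans (le_max_left _ _) hφ), ihb (le_trans (le_max_right _ _) hφ)⟩
    | mul a b iha ihb =>
      rw [ht] at hφ
      exact ⟨iha (le_trans (le_max_left _ _) hφ), ihb (le_trans (le_max_right _ _) hφ)⟩
    | inv a iha =>
      rw [ht] at hφ
      omega
  | succ h ih =>
    induction φ with
    | const c => rw [Lv]; trivial
    | var i => rw [Lv]; trivial
    | add a b iha ihb =>
      rw [ht] at hφ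
      rw [Lv]
      exact ⟨iha (le_trans (le_max_left _ _) hφ), ihb (le_trans (le_max_right _ _) hφ)⟩
    | mul a b iha ihb =>
      rw [ht] at hφ
      rw [Lv]
      exact ⟨iha (le_trans (le_max_left _ _) hφ), ihb (le_trans (le_max_right _ _) hφ)⟩
    | inv a iha =>
      rw [ht] at hφ
      rw [Lv]
      exact ih a (by omega)

end Pool.Agent.NCR
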